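import Mathlib

/-!
# [H23 UT Col] Finite edge-coloured complete graphs with the extension property (Mathlib only)

Counting, as in `Pool.Agent.H23.US.Bits`, with an arbitrary finite set `Λ` of colours and an arbitrary rule `comb`:
there are `M` and `f : Fin M → Fin M → Λ` such that for every `K` with at most `k` elements and every
`β : Fin M → Λ` some `m ∉ K` has `f m m' = comb (β m') (f m' m)` for all `m' ∈ K`.
-/

set_option autoImplicit false

open Finset

namespace Pool.Agent.H23.UT

private theorem pattern_card {P Λ : Type} [Fintype P] [DecidableEq P] [Fintype Λ] [DecidableEq Λ] (F : Finset P)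
    (c : P → Λ) :
    Fintype.card Λ ^ (Fintype.card P - F.card) ≤ (univ.filter fun r : P → Λ => ∀ p ∈ F, r p = c p).card := by
  have h : (Fintype.piFinset fun p : P => if p ∈ F then {c p} else (univ : Finset Λ)) ⊆
      univ.filter fun r : P → Λ => ∀ p ∈ F, r p = c p := by
    intro r hr
    rw [Fintype.mem_piFinset] at hr
    rw [mem_filter]
    refine ⟨mem_univ _, fun p hp => ?_⟩
    have h1 := hr p
    rw [if_pos hp, mem_singleton] at h1
    exact h1
  refine le_trans (le_of_eq ?_) (card_le_card h)
  rw [Fintype.card_piFinset]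
  have : ∀ p : P, (if p ∈ F then {c p} else (univ : Finset Λ)).card = if p ∈ F then 1 else Fintype.card Λ := by
    intro p
    split_ifs <;> simp
  simp only [this]
  rw [prod_ite, prod_const, prod_const, one_pow, one_mul]
  congr 1
  rw [← card_univ, ← card_sdiff_of_subset (subset_univ F)]
  congr 1
  ext p
  simp

/-- The number of bad choices. -/
private theorem bad_card {P Λ : Type} [Fintype P] [DecidableEq P] [Fintype Λ] [DecidableEq Λ] [Nonempty Λ]
    (F C : Finset P) (hC : Disjoint C F) (c : P → P → Λ → Λ) :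
    (univ.filter fun ω : P → P → Λ => ∀ m ∈ C, ¬ ∀ p ∈ F, ω m p = c m p (ω p m)).card ≤
      ((Fintype.card Λ ^ Fintype.card P - Fintype.card Λ ^ (Fintype.card P - F.card)) ^ C.card *
        (Fintype.card Λ ^ Fintype.card P) ^ (Fintype.card P - F.card - C.card)) *
          (Fintype.card Λ ^ Fintype.card P) ^ F.card := by
  classical
  let d : P → Λ := fun _ => Classical.arbitrary Λ
  set f : (P → P → Λ) → (P → P → Λ) := fun ω m => if m ∈ F then ω m else d with hf
  set B := univ.filter fun ω : P → P → Λ => ∀ m ∈ C, ¬ ∀ p ∈ F, ω m p = c m p (ω p m) with hB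
  have h1 : (B.image f).card ≤ (Fintype.card Λ ^ Fintype.card P) ^ F.card := by
    have h2 : B.image f ⊆
        Fintype.piFinset fun m : P => if m ∈ F then (univ : Finset (P → Λ)) else {d} := by
      intro g hg
      obtain ⟨ω, _, rfl⟩ := mem_image.1 hg
      rw [Fintype.mem_piFinset]
      intro m
      by_cases hm : m ∈ F
      · rw [if_pos hm]
        exact mem_univ _
      · rw [if_neg hm, mem_singleton, hf]
        simp only [if_neg hm]
    refine le_trans (card_le_card h2) (le_of_eq ?_)
    rw [Fintype.card_piFinset]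
    have : ∀ m : P, (if m ∈ F then (univ : Finset (P → Λ)) else {d}).card =
        if m ∈ F then Fintype.card Λ ^ Fintype.card P else 1 := by
      intro m
      split_ifs <;> simp
    simp only [this]
    rw [prod_ite, prod_const, prod_const, one_pow, mul_one]
    congr 1
    congr 1
    ext p
    simp
  have h3 : ∀ g ∈ B.image f, (B.filter fun ω => f ω = g).card ≤
      (Fintype.card Λ ^ Fintype.card P - Fintype.card Λ ^ (Fintype.card P - F.card)) ^ C.card *
        (Fintype.card Λ ^ Fintype.card P) ^ (Fintype.card P - F.card - C.card) := by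
    intro g _
    have h4 : (B.filter fun ω => f ω = g) ⊆ Fintype.piFinset fun m : P =>
        if m ∈ F then {g m} else if m ∈ C then
          univ.filter (fun r : P → Λ => ¬ ∀ p ∈ F, r p = c m p (g p m)) else univ := by
      intro ω hω
      rw [mem_filter] at hω
      obtain ⟨hω, hg⟩ := hω
      rw [hB, mem_filter] at hω
      rw [Fintype.mem_piFinset]
      intro m
      by_cases hm : m ∈ F
      · rw [if_pos hm, mem_singleton, ← hg, hf]
        simp only [if_pos hm]
      · rw [if_neg hm]
        by_cases hm2 : m ∈ C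
        · rw [if_pos hm2, mem_filter]
          refine ⟨mem_univ _, ?_⟩
          intro hall
          apply hω.2 m hm2
          intro p hp
          have h5 := hall p hp
          have h6 : g p = ω p := by
            rw [← hg, hf]
            simp only [if_pos hp]
          rw [h6] at h5
          exact h5
        · rw [if_neg hm2]
          exact mem_univ _
    refine le_trans (card_le_card h4) ?_
    rw [Fintype.card_piFinset]
    have h7 : ∀ m : P, (if m ∈ F then {g m} else if m ∈ C then
          univ.filter (fun r : P → Λ => ¬ ∀ p ∈ F, r p = c m p (g p m)) else univ).card ≤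
        if m ∈ F then 1 else if m ∈ C then
          Fintype.card Λ ^ Fintype.card P - Fintype.card Λ ^ (Fintype.card P - F.card)
          else Fintype.card Λ ^ Fintype.card P := by
      intro m
      by_cases hm : m ∈ F
      · rw [if_pos hm, if_pos hm, card_singleton]
      · rw [if_neg hm, if_neg hm]
        by_cases hm2 : m ∈ C
        · rw [if_pos hm2, if_pos hm2]
          have h8 := pattern_card F fun p => c m p (g p m)
          have h9 := card_filter_add_card_filter_not (s := (univ : Finset (P → Λ)))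
            (fun r : P → Λ => ∀ p ∈ F, r p = c m p (g p m))
          have h10 : (univ : Finset (P → Λ)).card = Fintype.card Λ ^ Fintype.card P := by
            simp
          omega
        · rw [if_neg hm2, if_neg hm2]
          simp
    refine le_trans (prod_le_prod' fun m _ => h7 m) (le_of_eq ?_)
    rw [prod_ite, prod_const_one, one_mul, prod_ite, prod_const, prod_const]
    have e1 : ((univ.filter fun m => ¬ m ∈ F).filter fun m => m ∈ C) = C := by
      ext m
      simp only [mem_filter, mem_univ, true_and]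
      constructor
      · exact fun h => h.2
      · exact fun h => ⟨fun h' => (Finset.disjoint_left.1 hC h h'), h⟩
    have e2 : ((univ.filter fun m => ¬ m ∈ F).filter fun m => ¬ m ∈ C) = (univ \ F) \ C := by
      ext m
      simp
    have e3 : ((univ \ F) \ C : Finset P).card = Fintype.card P - F.card - C.card := by
      rw [card_sdiff_of_subset, card_sdiff_of_subset (subset_univ F), card_univ]
      intro m hm
      rw [mem_sdiff]
      exact ⟨mem_univ _, Finset.disjoint_left.1 hC hm⟩
    rw [e1, e2, e3]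
  calc B.card ≤ _ * (B.image f).card := card_le_mul_card_image B _ h3
    _ ≤ _ := Nat.mul_le_mul_left _ h1

/-- The same bound in the reals, all rows outside `F` being candidates. -/
private theorem bad_real {P Λ : Type} [Fintype P] [DecidableEq P] [Fintype Λ] [DecidableEq Λ] [Nonempty Λ] (k : ℕ)
    (F : Finset P) (hF : F.card = k) (c : P → P → Λ → Λ) :
    ((univ.filter fun ω : P → P → Λ => ∀ m, m ∉ F → ¬ ∀ p ∈ F, ω m p = c m p (ω p m)).card : ℝ) ≤
      ((Fintype.card Λ : ℝ) ^ Fintype.card P) ^ Fintype.card P *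
        (1 - (1 / (Fintype.card Λ : ℝ)) ^ k) ^ (Fintype.card P - k) := by
  have h1 := bad_card F (univ \ F) sdiff_disjoint c
  have hn : F.card ≤ Fintype.card P := card_le_univ _
  have hc : (univ \ F : Finset P).card = Fintype.card P - k := by
    rw [card_sdiff_of_subset (subset_univ F), card_univ, hF]
  rw [hF] at hn
  have he : (univ.filter fun ω : P → P → Λ => ∀ m ∈ univ \ F, ¬ ∀ p ∈ F, ω m p = c m p (ω p m)) =
      univ.filter fun ω : P → P → Λ => ∀ m, m ∉ F → ¬ ∀ p ∈ F, ω m p = c m p (ω p m) := by
    apply filter_congr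
    intro ω _
    simp only [mem_sdiff, mem_univ, true_and]
  rw [he, hc, hF] at h1
  have hl : 0 < Fintype.card Λ := Fintype.card_pos
  have h2 : ((univ.filter fun ω : P → P → Λ => ∀ m, m ∉ F → ¬ ∀ p ∈ F, ω m p = c m p (ω p m)).card : ℝ) ≤
      ((((Fintype.card Λ ^ Fintype.card P - Fintype.card Λ ^ (Fintype.card P - k)) ^ (Fintype.card P - k) *
        (Fintype.card Λ ^ Fintype.card P) ^ (Fintype.card P - k - (Fintype.card P - k))) *
          (Fintype.card Λ ^ Fintype.card P) ^ k : ℕ) : ℝ) := by
    exact_mod_cast h1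
  refine le_trans h2 (le_of_eq ?_)
  have h3 : Fintype.card Λ ^ (Fintype.card P - k) ≤ Fintype.card Λ ^ Fintype.card P :=
    Nat.pow_le_pow_right hl (by omega)
  push_cast [Nat.cast_sub h3]
  rw [Nat.sub_self, pow_zero, mul_one]
  have hl' : (0 : ℝ) < (Fintype.card Λ : ℝ) := by exact_mod_cast hl
  have h4 : (Fintype.card Λ : ℝ) ^ Fintype.card P - (Fintype.card Λ : ℝ) ^ (Fintype.card P - k) =
      (Fintype.card Λ : ℝ) ^ Fintype.card P * (1 - (1 / (Fintype.card Λ : ℝ)) ^ k) := by
    have h5 : (Fintype.card Λ : ℝ) ^ Fintype.card P =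
        (Fintype.card Λ : ℝ) ^ (Fintype.card P - k) * (Fintype.card Λ : ℝ) ^ k := by
      rw [← pow_add]
      congr 1
      omega
    have h6 : (Fintype.card Λ : ℝ) ^ k * (1 / (Fintype.card Λ : ℝ)) ^ k = 1 := by
      rw [← mul_pow, mul_one_div_cancel hl'.ne', one_pow]
    rw [mul_sub, mul_one]
    congr 1
    rw [h5, mul_assoc, h6, mul_one]
  rw [h4, mul_pow]
  have h7 : ((Fintype.card Λ : ℝ) ^ Fintype.card P) ^ Fintype.card P =
      ((Fintype.card Λ : ℝ) ^ Fintype.card P) ^ (Fintype.card P - k) *
        ((Fintype.card Λ : ℝ) ^ Fintype.card P) ^ k := by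
    rw [← pow_add]
    congr 1
    omega
  rw [h7]
  ring

/-- The extension property for sets of exactly `k` points. -/
private theorem exists_comb_eq (Λ : Type) [Fintype Λ] [DecidableEq Λ] [Nontrivial Λ] (comb : Λ → Λ → Λ) (k : ℕ)
    (hk : 1 ≤ k) :
    ∃ (M : ℕ) (f : Fin M → Fin M → Λ), k ≤ M ∧ ∀ K : Finset (Fin M), K.card = k → ∀ β : Fin M → Λ,
      ∃ m, m ∉ K ∧ ∀ m' ∈ K, f m m' = comb (β m') (f m' m) := by
  classical
  set t : ℝ := (Fintype.card Λ : ℝ) with ht
  have ht1 : 1 < t := by
    rw [ht]
    exact_mod_cast Fintype.one_lt_card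
  have ht0 : 0 < t := by linarith
  set r : ℝ := 1 - (1 / t) ^ k with hr
  have hr0 : 0 < r := by
    have : (1 / t) ^ k < 1 := pow_lt_one₀ (by positivity) ((div_lt_one ht0).2 ht1) (by omega)
    rw [hr]
    linarith
  have hr1 : r < 1 := by
    have : (0 : ℝ) < (1 / t) ^ k := by positivity
    rw [hr]
    linarith
  have hlim := tendsto_pow_const_mul_const_pow_of_abs_lt_one k (r := r) (by rw [abs_of_pos hr0]; exact hr1)
  have he : 0 < r ^ k / t ^ k := by positivity
  obtain ⟨M, hM1, hM2⟩ := ((hlim.eventually (gt_mem_nhds he)).and (Filter.eventually_ge_atTop k)).exists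
  refine ⟨M, ?_⟩
  by_contra hno
  push Not at hno
  let d : Λ := Classical.arbitrary Λ
  have hcov : (univ : Finset (Fin M → Fin M → Λ)) ⊆
      (powersetCard k (univ : Finset (Fin M))).biUnion fun K =>
        (Fintype.piFinset fun m : Fin M => if m ∈ K then (univ : Finset Λ) else {d}).biUnion fun β =>
          univ.filter fun f : Fin M → Fin M → Λ =>
            ∀ m, m ∉ K → ¬ ∀ p ∈ K, f m p = (fun _ p x => comb (β p) x) m p (f p m) := by
    intro f _
    obtain ⟨K, hK, β, hβ⟩ := hno f hM2
    simp only [mem_biUnion, mem_powersetCard]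
    refine ⟨K, ⟨subset_univ _, hK⟩, fun m => if m ∈ K then β m else d, ?_, ?_⟩
    · rw [Fintype.mem_piFinset]
      intro m
      split_ifs
      · exact mem_univ _
      · exact mem_singleton_self _
    · rw [mem_filter]
      refine ⟨mem_univ _, ?_⟩
      intro m hm hall
      obtain ⟨p, hp, hp2⟩ := hβ m hm
      apply hp2
      have h1 := hall p hp
      simp only [if_pos hp] at h1
      exact h1
  have hcard := card_le_card hcov
  set L : ℝ := t ^ M with hL
  have hL0 : 0 < L := by
    rw [hL]
    positivity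
  have hb1 : ∀ K ∈ powersetCard k (univ : Finset (Fin M)), ∀ β : Fin M → Λ,
      ((univ.filter fun f : Fin M → Fin M → Λ =>
            ∀ m, m ∉ K → ¬ ∀ p ∈ K, f m p = (fun _ p x => comb (β p) x) m p (f p m)).card : ℝ) ≤
        L ^ M * r ^ (M - k) := by
    intro K hK β
    rw [mem_powersetCard] at hK
    have h1 := bad_real (Λ := Λ) k K hK.2 (fun _ p x => comb (β p) x)
    rw [Fintype.card_fin] at h1
    convert h1
  have hb2 : ((univ : Finset (Fin M → Fin M → Λ)).card : ℝ) ≤ (M : ℝ) ^ k * (t ^ k * (L ^ M * r ^ (M - k))) := by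
    refine le_trans (Nat.cast_le.2 hcard) ?_
    refine le_trans (Nat.cast_le.2 card_biUnion_le) ?_
    push_cast
    refine le_trans (sum_le_card_nsmul _ _ (t ^ k * (L ^ M * r ^ (M - k))) ?_) ?_
    · intro K hK
      refine le_trans (Nat.cast_le.2 card_biUnion_le) ?_
      push_cast
      refine le_trans (sum_le_card_nsmul _ _ (L ^ M * r ^ (M - k)) fun β _ => hb1 K hK β) ?_
      rw [nsmul_eq_mul, Fintype.card_piFinset]
      have h2 : ∀ m : Fin M, (if m ∈ K then (univ : Finset Λ) else {d}).card =
          if m ∈ K then Fintype.card Λ else 1 := by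
        intro m
        split_ifs <;> simp
      simp only [h2]
      rw [prod_ite, prod_const, prod_const, one_pow, mul_one]
      have h3 : (univ.filter fun m => m ∈ K) = K := by
        ext m
        simp
      rw [h3, (mem_powersetCard.1 hK).2]
      push_cast
      exact le_rfl
    · rw [card_powersetCard, card_univ, nsmul_eq_mul, Fintype.card_fin]
      refine mul_le_mul_of_nonneg_right ?_ (by positivity)
      exact_mod_cast Nat.choose_le_pow _ _
  have hΩ : ((univ : Finset (Fin M → Fin M → Λ)).card : ℝ) = L ^ M := by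
    rw [card_univ, Fintype.card_fun, Fintype.card_fun, Fintype.card_fin]
    push_cast
    rfl
  rw [hΩ] at hb2
  have hLn : 0 < L ^ M := by positivity
  have h8 : r ^ M = r ^ (M - k) * r ^ k := by
    rw [← pow_add]
    congr 1
    omega
  rw [lt_div_iff₀ (by positivity), h8] at hM1
  have h9 : (M : ℝ) ^ k * r ^ (M - k) * t ^ k < 1 := by
    have h10 : 0 < r ^ k := by positivity
    have h11 : ((M : ℝ) ^ k * r ^ (M - k) * t ^ k) * r ^ k < 1 * r ^ k := by
      rw [one_mul]
      calc ((M : ℝ) ^ k * r ^ (M - k) * t ^ k) * r ^ k =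
          (M : ℝ) ^ k * (r ^ (M - k) * r ^ k) * t ^ k := by ring
        _ < r ^ k := hM1
    exact lt_of_mul_lt_mul_right h11 h10.le
  have h12 : (M : ℝ) ^ k * (t ^ k * (L ^ M * r ^ (M - k))) = ((M : ℝ) ^ k * r ^ (M - k) * t ^ k) * L ^ M := by
    ring
  rw [h12] at hb2
  have h13 : ((M : ℝ) ^ k * r ^ (M - k) * t ^ k) * L ^ M < 1 * L ^ M := mul_lt_mul_of_pos_right h9 hLn
  linarith

/-- **The extension property.** -/
theorem exists_comb (Λ : Type) [Fintype Λ] [DecidableEq Λ] [Nontrivial Λ] (comb : Λ → Λ → Λ) (k : ℕ) :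
    ∃ (M : ℕ) (f : Fin M → Fin M → Λ), ∀ K : Finset (Fin M), K.card ≤ k → ∀ β : Fin M → Λ,
      ∃ m, m ∉ K ∧ ∀ m' ∈ K, f m m' = comb (β m') (f m' m) := by
  classical
  obtain ⟨M, f, hM, h⟩ := exists_comb_eq Λ comb (k + 1) (by omega)
  refine ⟨M, f, ?_⟩
  intro K hK β
  have h1 : k + 1 ≤ (univ : Finset (Fin M)).card := by
    rw [card_univ, Fintype.card_fin]
    exact hM
  obtain ⟨K', hK1, _, hK2⟩ := exists_subsuperset_card_eq (subset_univ K) (by omega) h1
  obtain ⟨m, hm, hp⟩ := h K' hK2 β
  exact ⟨m, fun h' => hm (hK1 h'), fun p hpK => hp p (hK1 hpK)⟩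

/-- **Blocks.** Points `(q, m)`, `q ∈ Q`, in blocks `m`: every pattern between a new block and at most `k` given
blocks occurs. -/
theorem exists_blocks (Q : Type) [Fintype Q] [DecidableEq Q] [Nonempty Q] (k : ℕ) :
    ∃ (M : ℕ) (ω : Fin M → Fin M → Q → Q → Bool), (∀ m m' p q, ω m m' p q = ω m' m q p) ∧
      ∀ K : Finset (Fin M), K.card ≤ k → ∀ β : Fin M → Q → Q → Bool,
        ∃ m, m ∉ K ∧ ∀ m' ∈ K, ∀ p q, ω m m' p q = β m' p q := by
  obtain ⟨M, f, h⟩ := exists_comb (Q → Q → Bool) (fun b g p q => xor (b p q) (g q p)) k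
  refine ⟨M, fun m m' p q => xor (f m m' p q) (f m' m q p), ?_, ?_⟩
  · intro m m' p q
    exact Bool.xor_comm _ _
  · intro K hK β
    obtain ⟨m, hm, h1⟩ := h K hK β
    refine ⟨m, hm, fun m' hm' p q => ?_⟩
    show xor (f m m' p q) (f m' m q p) = β m' p q
    rw [h1 m' hm']
    show xor (xor (β m' p q) (f m' m q p)) (f m' m q p) = β m' p q
    rw [Bool.xor_assoc, Bool.xor_self, Bool.xor_false]

end Pool.Agent.H23.UT
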