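import Pool.Agent.H23.US.Transfer

/-!
# [H23 UT Iso] Diameter three: extension property, isometry, pulling points

As in `Pool.Agent.H23.US`, but the points of `S` are required to be at pairwise distance at most two, and the new
point is at distance at most two from the given ones.
-/

set_option autoImplicit false

open Finset

namespace Pool.Agent.H23.UT

open Pool.Agent.H23.US

/-- The extension property. -/
def ExtG (G : SimpleGraph ℕ) (A W : Finset ℕ) (k : ℕ) : Prop :=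
  ∀ u, u ∉ A → ∀ Q S : Finset ℕ, Q ⊆ W \ A → Q.card ≤ k → S ⊆ Q →
    (∀ q ∈ S, ∀ a ∈ A, G.dist u a ≤ G.dist q a + 1 ∧ G.dist q a ≤ G.dist u a + 1) →
    (∀ q ∈ S, ∀ q' ∈ S, G.dist q q' ≤ 2) →
    ∃ w ∈ W, w ∉ A ∧ w ∉ Q ∧ (∀ a ∈ A, G.dist w a = G.dist u a) ∧ (∀ q ∈ Q, (G.Adj w q ↔ q ∈ S)) ∧
      ∀ q ∈ Q, G.dist w q ≤ 2

private theorem adj_close {N : ℕ} {G : SimpleGraph ℕ} (h : Univ N G) {u q : ℕ} (hq : G.Adj u q) (a : ℕ) :
    G.dist u a ≤ G.dist q a + 1 ∧ G.dist q a ≤ G.dist u a + 1 := by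
  have h1 : G.dist u a ≤ G.dist u q + G.dist q a := h.1.dist_triangle
  have h2 : G.dist q a ≤ G.dist q u + G.dist u a := h.1.dist_triangle
  rw [SimpleGraph.dist_eq_one_iff_adj.2 hq] at h1
  rw [SimpleGraph.dist_eq_one_iff_adj.2 hq.symm] at h2
  omega

private theorem adj_two {N : ℕ} {G : SimpleGraph ℕ} (h : Univ N G) {u q q' : ℕ} (hq : G.Adj u q)
    (hq' : G.Adj u q') : G.dist q q' ≤ 2 := by
  have h1 : G.dist q q' ≤ G.dist q u + G.dist u q' := h.1.dist_triangle
  rw [SimpleGraph.dist_eq_one_iff_adj.2 hq.symm, SimpleGraph.dist_eq_one_iff_adj.2 hq'] at h1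
  exact h1

private theorem key {N : ℕ} {G : SimpleGraph ℕ} (h : Univ N G) {A W : Finset ℕ} {k : ℕ} (hAW : A ⊆ W)
    (hE : ExtG G A W k) (hk : 2 ≤ k) :
    ∀ (m : ℕ) (w w' : W), G.dist (w : ℕ) w' = m → (Sub G W).edist w w' ≤ (m : ℕ∞) := by
  classical
  intro m
  induction m using Nat.strong_induction_on with
  | _ m ih =>
    intro w w' hm
    rcases m with _ | m
    · have : w = w' := Subtype.ext (h.1.dist_eq_zero_iff.1 hm)
      rw [this, SimpleGraph.edist_self]
      exact le_rfl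
    rcases m with _ | m
    · have h0 : G.Adj (w : ℕ) w' := SimpleGraph.dist_eq_one_iff_adj.1 hm
      have h1 : (Sub G W).Adj w w' := h0
      rw [SimpleGraph.edist_eq_one_iff_adj.2 h1]
      simp
    suffices hs : ∃ w₁ : W, G.Adj w w₁ ∧ G.dist (w₁ : ℕ) w' ≤ m + 1 by
      obtain ⟨w₁, h1, h2⟩ := hs
      have h3 : (Sub G W).edist w w₁ = 1 := SimpleGraph.edist_eq_one_iff_adj.2 h1
      have h4 := ih _ (Nat.lt_succ_of_le h2) w₁ w' rfl
      calc (Sub G W).edist w w' ≤ (Sub G W).edist w w₁ + (Sub G W).edist w₁ w' := SimpleGraph.edist_triangle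
        _ ≤ 1 + ((m + 1 : ℕ) : ℕ∞) := by
          rw [h3]
          exact add_le_add_right (le_trans h4 (by exact_mod_cast h2)) 1
        _ = ((m + 1 + 1 : ℕ) : ℕ∞) := by
          push_cast
          ring
    obtain ⟨u, hu1, hu2⟩ := geo h hm
    by_cases huA : u ∈ A
    · exact ⟨⟨u, hAW huA⟩, hu1, hu2.le⟩
    have hQ : (({(w : ℕ), (w' : ℕ)} : Finset ℕ) \ A).card ≤ k := by
      refine le_trans (card_le_card sdiff_subset) (le_trans card_le_two hk)
    obtain ⟨w₁, hw1, hw2, hw3, hw4, hw5, hw6⟩ := hE u huA (({(w : ℕ), (w' : ℕ)} : Finset ℕ) \ A)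
      ((({(w : ℕ), (w' : ℕ)} : Finset ℕ) \ A).filter fun q => G.Adj u q) (by
        intro q hq
        rw [mem_sdiff] at hq ⊢
        refine ⟨?_, hq.2⟩
        have := hq.1
        rw [mem_insert, mem_singleton] at this
        rcases this with rfl | rfl
        · exact w.2
        · exact w'.2) hQ (filter_subset _ _) (fun q hq a _ => adj_close h (mem_filter.1 hq).2 a)
        (fun q hq q' hq' => adj_two h (mem_filter.1 hq).2 (mem_filter.1 hq').2)
    have hw : ∀ q : W, ((q : ℕ) = w ∨ (q : ℕ) = w') → (G.Adj w₁ q ↔ G.Adj u q) := by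
      intro q hq
      by_cases hqA : (q : ℕ) ∈ A
      · rw [← SimpleGraph.dist_eq_one_iff_adj, ← SimpleGraph.dist_eq_one_iff_adj, hw4 q hqA]
      · have hqQ : (q : ℕ) ∈ ({(w : ℕ), (w' : ℕ)} : Finset ℕ) \ A := by
          rw [mem_sdiff, mem_insert, mem_singleton]
          exact ⟨hq, hqA⟩
        rw [hw5 q hqQ, mem_filter]
        exact ⟨fun h' => h'.2, fun h' => ⟨hqQ, h'⟩⟩
    refine ⟨⟨w₁, hw1⟩, ((hw w (Or.inl rfl)).2 hu1.symm).symm, ?_⟩
    show G.dist w₁ w' ≤ m + 1
    by_cases hw'A : (w' : ℕ) ∈ A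
    · rw [hw4 _ hw'A, hu2]
    rcases Nat.eq_zero_or_pos m with hm0 | hm0
    · subst hm0
      have h1 : G.Adj u w' := SimpleGraph.dist_eq_one_iff_adj.1 hu2
      rw [SimpleGraph.dist_eq_one_iff_adj.2 ((hw w' (Or.inr rfl)).2 h1)]
    · have h1 := hw6 w' (by
        rw [mem_sdiff, mem_insert, mem_singleton]
        exact ⟨Or.inr rfl, hw'A⟩)
      omega

/-- **`W` is isometric.** -/
theorem sub_edist {N : ℕ} {G : SimpleGraph ℕ} (h : Univ N G) {A W : Finset ℕ} {k : ℕ} (hAW : A ⊆ W)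
    (hE : ExtG G A W k) (hk : 2 ≤ k) (w w' : W) :
    (Sub G W).edist w w' = G.edist (w : ℕ) w' := by
  apply le_antisymm
  · rw [← coe_dist h]
    exact key h hAW hE hk _ w w' rfl
  · exact edist_hom_le (⟨fun w : W => (w : ℕ), fun h' => h'⟩ : Sub G W →g G) w w'

/-- The subgraph on `W` is connected. -/
theorem sub_conn {N : ℕ} {G : SimpleGraph ℕ} (h : Univ N G) {A W : Finset ℕ} {k : ℕ} (hA : A.Nonempty)
    (hAW : A ⊆ W) (hE : ExtG G A W k) (hk : 2 ≤ k) : (Sub G W).Connected := by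
  have : Nonempty W := ⟨⟨_, hAW hA.choose_spec⟩⟩
  refine ⟨fun w w' => ?_⟩
  apply SimpleGraph.reachable_of_edist_ne_top
  rw [sub_edist h hAW hE hk, ← coe_dist h]
  exact ENat.natCast_ne_top _

/-- The subgraph on `W` has diameter `N` if `A` has two points at distance `N`. -/
theorem sub_ediam {N : ℕ} {G : SimpleGraph ℕ} (h : Univ N G) {A W : Finset ℕ} {k : ℕ}
    (hAW : A ⊆ W) (hE : ExtG G A W k) (hk : 2 ≤ k)
    (hd : ∃ a ∈ A, ∃ b ∈ A, G.edist a b = (N : ℕ∞)) : (Sub G W).ediam = (N : ℕ∞) := by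
  apply le_antisymm
  · apply SimpleGraph.ediam_le_of_edist_le
    intro w w'
    rw [sub_edist h hAW hE hk, ← h.2.1]
    exact SimpleGraph.edist_le_ediam
  · obtain ⟨a, ha, b, hb, hab⟩ := hd
    rw [← hab]
    have := sub_edist h hAW hE hk ⟨a, hAW ha⟩ ⟨b, hAW hb⟩
    rw [← this]
    exact SimpleGraph.edist_le_ediam

/-- `Good`, and distances at most two stay at most two. -/
structure Good2 (G : SimpleGraph ℕ) (A W D : Finset ℕ) (f : ℕ → ℕ) : Prop extends Good G A W D f where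
  two : ∀ u ∈ D, ∀ v ∈ D, G.dist u v ≤ 2 → G.dist (f u) (f v) ≤ 2

/-- One more vertex. -/
theorem Good2.step {N : ℕ} {G : SimpleGraph ℕ} (h : Univ N G) {A W : Finset ℕ} {k : ℕ}
    (hE : ExtG G A W k) {D : Finset ℕ} (hAD : A ⊆ D) (hD : (D \ A).card ≤ k) {f : ℕ → ℕ}
    (hf : Good2 G A W D f) {u : ℕ} (hu : u ∉ D) :
    ∃ g, (∀ v ∈ D, g v = f v) ∧ Good2 G A W (insert u D) g := by
  classical
  have huA : u ∉ A := fun h' => hu (hAD h')
  obtain ⟨w, hw1, hw2, hw3, hw4, hw5, hw6⟩ := hE u huA ((D \ A).image f)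
    (((D \ A).filter fun q => G.Adj u q).image f)
    (by
      intro q hq
      obtain ⟨v, hv, rfl⟩ := mem_image.1 hq
      rw [mem_sdiff] at hv
      exact mem_sdiff.2 ⟨hf.mem v hv.1, hf.toGood.out h hv.1 hv.2⟩)
    (le_trans card_image_le hD) (image_subset_image (filter_subset _ _))
    (by
      intro q hq a ha
      obtain ⟨v, hv, rfl⟩ := mem_image.1 hq
      rw [mem_filter, mem_sdiff] at hv
      rw [hf.typ v hv.1.1 a ha]
      exact adj_close h hv.2 a)
    (by
      intro q hq q' hq'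
      obtain ⟨v, hv, rfl⟩ := mem_image.1 hq
      obtain ⟨v', hv', rfl⟩ := mem_image.1 hq'
      rw [mem_filter, mem_sdiff] at hv hv'
      exact hf.two v hv.1.1 v' hv'.1.1 (adj_two h hv.2 hv'.2))
  have hne : ∀ v ∈ D, v ≠ u := fun v hv h' => hu (h' ▸ hv)
  have hadj : ∀ v ∈ D, (G.Adj w (f v) ↔ G.Adj u v) := by
    intro v hv
    by_cases hvA : v ∈ A
    · rw [hf.toGood.fix h hvA hv, ← SimpleGraph.dist_eq_one_iff_adj, ← SimpleGraph.dist_eq_one_iff_adj, hw4 v hvA]
    · rw [hw5 (f v) (mem_image_of_mem f (mem_sdiff.2 ⟨hv, hvA⟩))]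
      constructor
      · intro h'
        obtain ⟨v', hv', he⟩ := mem_image.1 h'
        rw [mem_filter, mem_sdiff] at hv'
        rw [← hf.inj v' hv'.1.1 v hv he]
        exact hv'.2
      · intro h'
        exact mem_image_of_mem f (mem_filter.2 ⟨mem_sdiff.2 ⟨hv, hvA⟩, h'⟩)
  have hnew : ∀ v ∈ D, w ≠ f v := by
    intro v hv h'
    by_cases hvA : v ∈ A
    · rw [hf.toGood.fix h hvA hv] at h'
      exact hw2 (h' ▸ hvA)
    · exact hw3 (h' ▸ mem_image_of_mem f (mem_sdiff.2 ⟨hv, hvA⟩))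
  have htwo : ∀ v ∈ D, G.dist u v ≤ 2 → G.dist w (f v) ≤ 2 := by
    intro v hv h2
    by_cases hvA : v ∈ A
    · rw [hf.toGood.fix h hvA hv, hw4 v hvA]
      exact h2
    · exact hw6 _ (mem_image_of_mem f (mem_sdiff.2 ⟨hv, hvA⟩))
  refine ⟨fun v => if v = u then w else f v, fun v hv => if_neg (hne v hv), ⟨?_, ?_, ?_, ?_⟩, ?_⟩
  · intro v hv
    rcases mem_insert.1 hv with e | hv1
    · simpa [e] using hw1
    · simpa [hne v hv1] using hf.mem v hv1
  · intro v hv v' hv' he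
    rcases mem_insert.1 hv with e | hv1 <;> rcases mem_insert.1 hv' with e' | hv1'
    · rw [e, e']
    · simp only [if_pos e, if_neg (hne v' hv1')] at he
      exact (hnew v' hv1' he).elim
    · simp only [if_pos e', if_neg (hne v hv1)] at he
      exact (hnew v hv1 he.symm).elim
    · simp only [if_neg (hne v hv1), if_neg (hne v' hv1')] at he
      exact hf.inj v hv1 v' hv1' he
  · intro v hv v' hv'
    rcases mem_insert.1 hv with e | hv1 <;> rcases mem_insert.1 hv' with e' | hv1'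
    · simp [e, e']
    · simp only [if_pos e, if_neg (hne v' hv1')]
      rw [e]
      exact hadj v' hv1'
    · simp only [if_pos e', if_neg (hne v hv1)]
      rw [SimpleGraph.adj_comm, hadj v hv1, SimpleGraph.adj_comm, e']
    · simp only [if_neg (hne v hv1), if_neg (hne v' hv1')]
      exact hf.adj v hv1 v' hv1'
  · intro v hv a ha
    rcases mem_insert.1 hv with e | hv1
    · simpa [e] using hw4 a ha
    · simpa [hne v hv1] using hf.typ v hv1 a ha
  · intro v hv v' hv' h2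
    rcases mem_insert.1 hv with e | hv1 <;> rcases mem_insert.1 hv' with e' | hv1'
    · simp [e, e']
    · simp only [if_pos e, if_neg (hne v' hv1')]
      rw [e] at h2
      exact htwo v' hv1' h2
    · simp only [if_pos e', if_neg (hne v hv1)]
      rw [e', SimpleGraph.dist_comm] at h2
      rw [SimpleGraph.dist_comm]
      exact htwo v hv1 h2
    · simp only [if_neg (hne v hv1), if_neg (hne v' hv1')]
      exact hf.two v hv1 v' hv1' h2

/-- Finitely many more vertices. -/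
theorem Good2.many {N : ℕ} {G : SimpleGraph ℕ} (h : Univ N G) {A W : Finset ℕ} {k : ℕ}
    (hE : ExtG G A W k) {D : Finset ℕ} (hAD : A ⊆ D) {f : ℕ → ℕ} (hf : Good2 G A W D f) (Z : Finset ℕ)
    (hD : (D \ A).card + Z.card ≤ k) :
    ∃ g, (∀ v ∈ D, g v = f v) ∧ Good2 G A W (D ∪ Z) g := by
  classical
  induction Z using Finset.induction_on with
  | empty => exact ⟨f, fun _ _ => rfl, by rwa [union_empty]⟩
  | @insert u Z hu ih =>
    rw [card_insert_of_notMem hu] at hD
    obtain ⟨g, hg1, hg2⟩ := ih (by omega)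
    by_cases huD : u ∈ D ∪ Z
    · refine ⟨g, hg1, ?_⟩
      have : D ∪ insert u Z = D ∪ Z := by
        rw [union_insert, insert_eq_of_mem huD]
      rwa [this]
    · have h1 : ((D ∪ Z) \ A).card ≤ k := by
        have h2 : (D ∪ Z) \ A ⊆ (D \ A) ∪ Z := by
          intro v hv
          rw [mem_sdiff, mem_union] at hv
          rw [mem_union, mem_sdiff]
          rcases hv.1 with h' | h'
          · exact Or.inl ⟨h', hv.2⟩
          · exact Or.inr h'
        have h3 := card_le_card h2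
        have h4 := card_union_le (D \ A) Z
        omega
      obtain ⟨g', hg1', hg2'⟩ := hg2.step h hE (hAD.trans subset_union_left) h1 huD
      refine ⟨g', fun v hv => ?_, ?_⟩
      · rw [hg1' v (mem_union_left _ hv), hg1 v hv]
      · rwa [union_insert]

end Pool.Agent.H23.UT
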