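import Pool.Agent.H23.UT.Cel
import Pool.Agent.H23.UT.Col
import Pool.Agent.H23.UT.Iso

/-!
# [H23 UT Blk] Diameter three: blocks of cells over `A`, random adjacency between different blocks

Inside a block the distance is the distance of the cells. Points of different blocks are at distance one or two:
one iff their functions on `A` differ by at most one, their bit is set, and the bits are not set which belong to
a point at distance three from one of the two in its block.
-/

set_option autoImplicit false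

open Finset

namespace Pool.Agent.H23.UT

open Pool.Agent.H23.US

section

variable {G : SimpleGraph ℕ} {A : Finset ℕ} {ι : Type} [Fintype ι] {M : ℕ}

/-- A point: a cell and the number of a block. -/
private abbrev Pt (G : SimpleGraph ℕ) (A : Finset ℕ) (ι : Type) (M : ℕ) : Type :=
  (Ty G A 3 × (ι → ZMod (2 * 3 + 1))) × Fin M

/-- Adjacency of points of different blocks. -/
private def X (ω : Fin M → Fin M → (Ty G A 3 × (ι → ZMod (2 * 3 + 1))) → (Ty G A 3 × (ι → ZMod (2 * 3 + 1))) → Bool)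
    (p q : Pt G A ι M) : Prop :=
  dt p.1.1 q.1.1 ≤ 1 ∧ ω p.2 q.2 p.1 q.1 = true ∧ (∀ p', rc p.1 p' = 3 → ω p.2 q.2 p' q.1 = false) ∧
    ∀ q', rc q.1 q' = 3 → ω p.2 q.2 p.1 q' = false

variable {ω : Fin M → Fin M → (Ty G A 3 × (ι → ZMod (2 * 3 + 1))) → (Ty G A 3 × (ι → ZMod (2 * 3 + 1))) → Bool}

private theorem X_symm (hω : ∀ m m' p q, ω m m' p q = ω m' m q p) {p q : Pt G A ι M} (h : X ω p q) : X ω q p := by
  obtain ⟨h1, h2, h3, h4⟩ := h
  refine ⟨?_, ?_, ?_, ?_⟩
  · rw [dt_comm]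
    exact h1
  · rw [hω]
    exact h2
  · intro p' hp'
    rw [hω]
    exact h4 p' hp'
  · intro q' hq'
    rw [hω]
    exact h3 q' hq'

/-- Two points of a block with a common neighbour are at distance at most two. -/
private theorem X_two {p p' q : Pt G A ι M} (hpp : p.2 = p'.2) (h : X ω p q) (h' : X ω p' q) :
    rc p.1 p'.1 ≤ 2 := by
  have h1 := rc_le_N p.1 p'.1
  by_contra hlt
  have h2 : rc p.1 p'.1 = 3 := by omega
  have h3 := h.2.2.1 p'.1 h2
  rw [hpp, h'.2.1] at h3
  exact Bool.noConfusion h3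

open Classical in
/-- The distance outside `A`. -/
private noncomputable def rb
    (ω : Fin M → Fin M → (Ty G A 3 × (ι → ZMod (2 * 3 + 1))) → (Ty G A 3 × (ι → ZMod (2 * 3 + 1))) → Bool)
    (p q : Pt G A ι M) : ℕ :=
  if p.2 = q.2 then rc p.1 q.1 else if X ω p q then 1 else 2

private theorem rb_self (p : Pt G A ι M) : rb ω p p = 0 := by
  unfold rb
  rw [if_pos rfl, rc_self]

private theorem rb_comm (hω : ∀ m m' p q, ω m m' p q = ω m' m q p) (p q : Pt G A ι M) : rb ω p q = rb ω q p := by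
  unfold rb
  by_cases h : p.2 = q.2
  · rw [if_pos h, if_pos h.symm, rc_comm]
  · have h2 : ¬ q.2 = p.2 := fun h' => h h'.symm
    rw [if_neg h, if_neg h2]
    by_cases h1 : X ω p q
    · rw [if_pos h1, if_pos (X_symm hω h1)]
    · have h3 : ¬ X ω q p := fun h' => h1 (X_symm hω h')
      rw [if_neg h1, if_neg h3]

private theorem rb_pos (h : Univ 3 G) {p q : Pt G A ι M} (hpq : p ≠ q) : 1 ≤ rb ω p q := by
  unfold rb
  by_cases h1 : p.2 = q.2
  · rw [if_pos h1]
    exact rc_pos (by norm_num) h fun h' => hpq (Prod.ext h' h1)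
  · rw [if_neg h1]
    split_ifs <;> norm_num

private theorem rb_le (p q : Pt G A ι M) : rb ω p q ≤ 3 := by
  unfold rb
  split_ifs
  · exact rc_le_N _ _
  · norm_num
  · norm_num

private theorem rb_two {p q : Pt G A ι M} (h : p.2 ≠ q.2) : rb ω p q ≤ 2 := by
  unfold rb
  rw [if_neg h]
  split_ifs <;> norm_num

private theorem rb_one {p q : Pt G A ι M} (h : p.2 ≠ q.2) : rb ω p q = 1 ↔ X ω p q := by
  unfold rb
  rw [if_neg h]
  split_ifs with h1
  · exact ⟨fun _ => h1, fun _ => rfl⟩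
  · exact ⟨fun h2 => by omega, fun h2 => (h1 h2).elim⟩

private theorem dt_two (h : Univ 3 G) (τ σ : Ty G A 3) : dt τ σ ≤ 2 := by
  rw [dt_le_iff]
  intro a
  have h1 := ty_pos h τ a
  have h2 := ty_pos h σ a
  have h3 := (τ.1 a).2
  have h4 := (σ.1 a).2
  omega

private theorem dt_le_rb (h : Univ 3 G) (p q : Pt G A ι M) : dt p.1.1 q.1.1 ≤ rb ω p q := by
  unfold rb
  split_ifs with h1 h2
  · exact dt_le_rc _ _
  · exact h2.1
  · exact dt_two h _ _

private theorem rb_le_add (h : Univ 3 G) (p q : Pt G A ι M) (a : A) : rb ω p q ≤ (p.1.1.1 a : ℕ) + q.1.1.1 a := by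
  have h1 := ty_pos h p.1.1 a
  have h2 := ty_pos h q.1.1 a
  by_cases h3 : p.2 = q.2
  · unfold rb
    rw [if_pos h3]
    exact rc_le_add h _ _ a
  · have := rb_two (ω := ω) h3
    omega

private theorem rb_tri (h : Univ 3 G) (hω : ∀ m m' p q, ω m m' p q = ω m' m q p) (p q r : Pt G A ι M) :
    rb ω p r ≤ rb ω p q + rb ω q r := by
  by_cases e1 : p = q
  · subst e1
    exact Nat.le_add_left _ _
  by_cases e2 : q = r
  · subst e2
    exact Nat.le_add_right _ _
  have h1 := rb_pos (ω := ω) h e1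
  have h2 := rb_pos (ω := ω) h e2
  by_cases e3 : p.2 = r.2
  · by_cases e4 : p.2 = q.2
    · unfold rb
      rw [if_pos e3, if_pos e4, if_pos (e4.symm.trans e3)]
      exact rc_tri _ _ _
    · have e5 : q.2 ≠ r.2 := fun h' => e4 (e3.trans h'.symm)
      have h3 := rb_le (ω := ω) p r
      by_contra hlt
      have h4 : rb ω p q = 1 := by omega
      have h5 : rb ω q r = 1 := by omega
      have h6 := (rb_one e4).1 h4
      have h7 := X_symm hω ((rb_one e5).1 h5)
      have h8 := X_two e3 h6 h7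
      have h9 : rb ω p r ≤ 2 := by
        unfold rb
        rw [if_pos e3]
        exact h8
      omega
  · have h3 := rb_two (ω := ω) e3
    omega

/-- All distances. -/
private noncomputable def RB
    (ω : Fin M → Fin M → (Ty G A 3 × (ι → ZMod (2 * 3 + 1))) → (Ty G A 3 × (ι → ZMod (2 * 3 + 1))) → Bool) :
    A ⊕ Pt G A ι M → A ⊕ Pt G A ι M → ℕ
  | Sum.inl a, Sum.inl b => G.dist a b
  | Sum.inl a, Sum.inr p => p.1.1.1 a
  | Sum.inr p, Sum.inl a => p.1.1.1 a
  | Sum.inr p, Sum.inr q => rb ω p q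

private theorem RB_self : ∀ i, RB ω i i = 0
  | Sum.inl _ => SimpleGraph.dist_self
  | Sum.inr p => rb_self p

private theorem RB_comm (hω : ∀ m m' p q, ω m m' p q = ω m' m q p) : ∀ i j, RB ω i j = RB ω j i
  | Sum.inl _, Sum.inl _ => SimpleGraph.dist_comm
  | Sum.inl _, Sum.inr _ => rfl
  | Sum.inr _, Sum.inl _ => rfl
  | Sum.inr p, Sum.inr q => rb_comm hω p q

private theorem RB_le (h : Univ 3 G) : ∀ i j, RB ω i j ≤ 3
  | Sum.inl _, Sum.inl _ => dist_le h _ _
  | Sum.inl a, Sum.inr p => Nat.le_of_lt_succ (p.1.1.1 a).2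
  | Sum.inr p, Sum.inl a => Nat.le_of_lt_succ (p.1.1.1 a).2
  | Sum.inr p, Sum.inr q => rb_le p q

private theorem RB_tri (h : Univ 3 G) (hω : ∀ m m' p q, ω m m' p q = ω m' m q p) :
    ∀ i j k, RB ω i k ≤ RB ω i j + RB ω j k
  | Sum.inl a, Sum.inl b, Sum.inl c => h.1.dist_triangle
  | Sum.inl a, Sum.inl b, Sum.inr p => ty_le h p.1.1 a b
  | Sum.inl a, Sum.inr p, Sum.inl c => ty_ge h p.1.1 a c
  | Sum.inr p, Sum.inl b, Sum.inl c => by
    show (p.1.1.1 c : ℕ) ≤ p.1.1.1 b + G.dist b c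
    have h1 := ty_le h p.1.1 c b
    have h2 : G.dist (c : ℕ) b = G.dist (b : ℕ) c := SimpleGraph.dist_comm
    omega
  | Sum.inl a, Sum.inr p, Sum.inr q => by
    show (q.1.1.1 a : ℕ) ≤ p.1.1.1 a + rb ω p q
    have h1 := dt_le_rb (ω := ω) h p q
    have h2 := le_dt p.1.1 q.1.1 a
    omega
  | Sum.inr p, Sum.inr q, Sum.inl a => by
    show (p.1.1.1 a : ℕ) ≤ rb ω p q + q.1.1.1 a
    have h1 := dt_le_rb (ω := ω) h p q
    have h2 := le_dt p.1.1 q.1.1 a
    omega
  | Sum.inr p, Sum.inl a, Sum.inr q => rb_le_add h p q a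
  | Sum.inr p, Sum.inr q, Sum.inr r => rb_tri h hω p q r

end

/-- Property (Y): every point of `W` has around it every finite configuration over `A` which occurs in `G`. -/
def ConfG (G : SimpleGraph ℕ) (A W : Finset ℕ) (ι : Type) : Prop :=
  ∀ y ∈ W, ∀ z : ι → ℕ, ∃ z' : ι → ℕ, (∀ i, z' i ∈ W) ∧ (∀ i j, G.dist (z' i) (z' j) = G.dist (z i) (z j)) ∧
    (∀ i, G.dist (z' i) y = G.dist (z i) y) ∧ ∀ i, ∀ a ∈ A, G.dist (z' i) a = G.dist (z i) a

/-- **The set `W`.** -/
theorem exists_W {G : SimpleGraph ℕ} (h : Univ 3 G) (A : Finset ℕ) (hA : A.Nonempty) (κ : Type) [Fintype κ]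
    (k : ℕ) : ∃ W : Finset ℕ, A ⊆ W ∧ ExtG G A W k ∧ ConfG G A W κ := by
  classical
  -- a vertex outside `A`
  have hout' : ∃ u, u ∉ A := by
    obtain ⟨u, hu⟩ := Infinite.exists_notMem_finset A
    exact ⟨u, hu⟩
  obtain ⟨u₀, hu₀⟩ := hout'
  have : Nonempty (Ty G A 3 × (Option κ → ZMod (2 * 3 + 1))) := ⟨(tyOf h u₀ hu₀, fun _ => 0)⟩
  obtain ⟨M, ω, hω, hb⟩ := exists_blocks (Ty G A 3 × (Option κ → ZMod (2 * 3 + 1))) k
  obtain ⟨f, hf1, hf2⟩ := points_over h A hA (RB ω) RB_self (RB_comm hω) (RB_tri h hω) (RB_le h) (fun _ _ => rfl)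
  have hinj : Function.Injective fun p => f (Sum.inr p) := by
    intro p q hpq
    by_contra hne
    have h1 := hf2 (Sum.inr p) (Sum.inr q)
    have h2 := rb_pos (ω := ω) h hne
    change f (Sum.inr p) = f (Sum.inr q) at hpq
    rw [hpq, SimpleGraph.dist_self] at h1
    change 0 = rb ω p q at h1
    omega
  have hout : ∀ p, f (Sum.inr p) ∉ A := by
    intro p hp
    have h1 := hf2 (Sum.inr p) (Sum.inl ⟨_, hp⟩)
    rw [hf1, SimpleGraph.dist_self] at h1
    change 0 = (p.1.1.1 ⟨_, hp⟩ : ℕ) at h1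
    have h2 := ty_pos h p.1.1 ⟨_, hp⟩
    omega
  have hrep : ∀ q ∈ univ.image f, q ∉ A → ∃ p, f (Sum.inr p) = q := by
    intro q hq hqA
    obtain ⟨x, _, rfl⟩ := mem_image.1 hq
    rcases x with a | p
    · exfalso
      apply hqA
      rw [hf1]
      exact a.2
    · exact ⟨p, rfl⟩
  have hval : ∀ p (a : A), G.dist (f (Sum.inr p)) a = (p.1.1.1 a : ℕ) := by
    intro p a
    have h1 := hf2 (Sum.inr p) (Sum.inl a)
    rw [hf1] at h1
    exact h1
  have hty : ∀ p, tyOf h (f (Sum.inr p)) (hout p) = p.1.1 := by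
    intro p
    apply Subtype.ext
    funext a
    apply Fin.ext
    rw [tyOf_val, hval]
  refine ⟨univ.image f, ?_, ?_, ?_⟩
  · intro a ha
    exact mem_image.2 ⟨Sum.inl ⟨a, ha⟩, mem_univ _, hf1 ⟨a, ha⟩⟩
  · intro u hu Q S hQ hQk hSQ hS hS2
    let p₀ : Ty G A 3 × (Option κ → ZMod (2 * 3 + 1)) := (tyOf h u hu, fun _ => 0)
    let F : Finset (Pt G A (Option κ) M) := univ.filter fun p => f (Sum.inr p) ∈ Q
    have hF : F.card ≤ k := by
      refine le_trans (card_le_card_of_injOn (fun p => f (Sum.inr p)) ?_ ?_) hQk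
      · intro p hp
        exact (mem_filter.1 hp).2
      · exact hinj.injOn
    obtain ⟨m, hm, hp⟩ := hb (F.image Prod.snd) (le_trans card_image_le hF)
      (fun m' p q => decide (p = p₀ ∧ f (Sum.inr (q, m')) ∈ S))
    have hnb : ∀ q : Pt G A (Option κ) M, f (Sum.inr q) ∈ Q → m ≠ q.2 := by
      intro q hq h'
      apply hm
      rw [h']
      exact mem_image_of_mem _ (mem_filter.2 ⟨mem_univ _, hq⟩)
    refine ⟨f (Sum.inr (p₀, m)), mem_image.2 ⟨_, mem_univ _, rfl⟩, hout _, ?_, ?_, ?_, ?_⟩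
    · intro hq
      exact hnb _ hq rfl
    · intro a ha
      exact hval (p₀, m) ⟨a, ha⟩
    · intro q hq
      obtain ⟨p, rfl⟩ := hrep q (mem_sdiff.1 (hQ hq)).1 (mem_sdiff.1 (hQ hq)).2
      have hne := hnb p hq
      have hpK : p.2 ∈ F.image Prod.snd := mem_image_of_mem _ (mem_filter.2 ⟨mem_univ _, hq⟩)
      have h1 := hf2 (Sum.inr (p₀, m)) (Sum.inr p)
      change _ = rb ω (p₀, m) p at h1
      rw [← SimpleGraph.dist_eq_one_iff_adj, h1, rb_one hne]
      constructor
      · rintro ⟨_, h2, _⟩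
        change ω m p.2 p₀ p.1 = true at h2
        rw [hp p.2 hpK] at h2
        exact (of_decide_eq_true h2).2
      · intro h2
        refine ⟨?_, ?_, ?_, ?_⟩
        · rw [dt_le_iff]
          intro a
          have h3 := hS _ h2 a a.2
          rw [hval] at h3
          change ((G.dist u a) - (p.1.1.1 a : ℕ)) + ((p.1.1.1 a : ℕ) - G.dist u a) ≤ 1
          omega
        · show ω m p.2 p₀ p.1 = true
          rw [hp p.2 hpK]
          exact decide_eq_true ⟨rfl, h2⟩
        · intro p' hp'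
          show ω m p.2 p' p.1 = false
          rw [hp p.2 hpK]
          apply decide_eq_false
          rintro ⟨h3, _⟩
          rw [h3] at hp'
          change rc p₀ p₀ = 3 at hp'
          rw [rc_self] at hp'
          omega
        · intro q' hq'
          show ω m p.2 p₀ q' = false
          rw [hp p.2 hpK]
          apply decide_eq_false
          rintro ⟨_, h3⟩
          have h4 := hS2 _ h2 _ h3
          have h5 := hf2 (Sum.inr p) (Sum.inr (q', p.2))
          change _ = rb ω p (q', p.2) at h5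
          have h6 : rb ω p (q', p.2) = rc p.1 q' := by
            unfold rb
            rw [if_pos rfl]
          rw [h5, h6, hq'] at h4
          omega
    · intro q hq
      obtain ⟨p, rfl⟩ := hrep q (mem_sdiff.1 (hQ hq)).1 (mem_sdiff.1 (hQ hq)).2
      have h1 := hf2 (Sum.inr (p₀, m)) (Sum.inr p)
      change _ = rb ω (p₀, m) p at h1
      rw [h1]
      exact rb_two (hnb p hq)
  · intro y hy z
    -- a block and a base point
    have hbase : ∃ (m : Fin M) (c₀ : Option κ → ZMod (2 * 3 + 1)), ∀ hyA : y ∉ A,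
        f (Sum.inr ((tyOf h y hyA, c₀), m)) = y := by
      by_cases hyA : y ∈ A
      · obtain ⟨m, _⟩ := hb ∅ (by simp) (fun _ _ _ => true)
        exact ⟨m, fun _ => 0, fun h' => (h' hyA).elim⟩
      · obtain ⟨p, hp⟩ := hrep y hy hyA
        refine ⟨p.2, p.1.2, fun _ => ?_⟩
        have h1 : tyOf h y hyA = p.1.1 := by
          have := hty p
          subst hp
          exact this
        rw [h1]
        exact hp
    obtain ⟨m, c₀, hyc⟩ := hbase
    let q : Option κ → ℕ := fun o => o.elim y z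
    let ψ : ℕ → A ⊕ Pt G A (Option κ) M := fun u =>
      if hu : u ∈ A then Sum.inl ⟨u, hu⟩ else Sum.inr ((tyOf h u hu, phi G q c₀ y u), m)
    have hψA : ∀ u (hu : u ∈ A), ψ u = Sum.inl ⟨u, hu⟩ := fun u hu => dif_pos hu
    have hψN : ∀ u (hu : u ∉ A), ψ u = Sum.inr ((tyOf h u hu, phi G q c₀ y u), m) := fun u hu => dif_neg hu
    have hfA : ∀ u ∈ A, f (ψ u) = u := by
      intro u hu
      rw [hψA u hu, hf1]
    have hfy : f (ψ y) = y := by
      by_cases hyA : y ∈ A
      · exact hfA y hyA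
      · rw [hψN y hyA, phi_base]
        exact hyc hyA
    have hdist : ∀ u v, (∃ o, q o = v) → G.dist (f (ψ u)) (f (ψ v)) = G.dist u v := by
      rintro u v ⟨o, rfl⟩
      by_cases hu : u ∈ A <;> by_cases hv : q o ∈ A
      · rw [hfA u hu, hfA _ hv]
      · rw [hfA u hu, hψN _ hv]
        have h1 := hval ((tyOf h (q o) hv, phi G q c₀ y (q o)), m) ⟨u, hu⟩
        rw [SimpleGraph.dist_comm, h1]
        show ((tyOf h (q o) hv).1 ⟨u, hu⟩ : ℕ) = G.dist u (q o)
        rw [tyOf_val, SimpleGraph.dist_comm]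
      · rw [hfA _ hv, hψN u hu]
        exact hval ((tyOf h u hu, phi G q c₀ y u), m) ⟨_, hv⟩
      · rw [hψN u hu, hψN _ hv, hf2]
        show rb ω ((tyOf h u hu, phi G q c₀ y u), m) ((tyOf h (q o) hv, phi G q c₀ y (q o)), m) = _
        unfold rb
        rw [if_pos rfl]
        exact rc_real h hu hv _ _ (phi_dist h q c₀ y u o)
    refine ⟨fun i => f (ψ (z i)), fun i => mem_image.2 ⟨_, mem_univ _, rfl⟩, ?_, ?_, ?_⟩
    · intro i j
      exact hdist (z i) (z j) ⟨some j, rfl⟩
    · intro i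
      have h1 := hdist (z i) y ⟨none, rfl⟩
      rwa [hfy] at h1
    · intro i a ha
      by_cases hi : z i ∈ A
      · show G.dist (f (ψ (z i))) a = _
        rw [hfA _ hi]
      · show G.dist (f (ψ (z i))) a = _
        rw [hψN _ hi]
        exact hval ((tyOf h (z i) hi, phi G q c₀ y (z i)), m) ⟨a, ha⟩

end Pool.Agent.H23.UT
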