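import Pool.Agent.H23.UT.Tor

/-!
# [H23 UT Cel] Cells: a distance function on `A` and a point of the torus

The distance of two cells is the distance of the torus, clamped between the bounds given by `A`.
-/

set_option autoImplicit false

open Finset

namespace Pool.Agent.H23.UT

open Pool.Agent.H23.US

/-- The realised distance functions on `A`. -/
abbrev Ty (G : SimpleGraph ℕ) (A : Finset ℕ) (N : ℕ) : Type :=
  {τ : A → Fin (N + 1) // ∃ u, u ∉ A ∧ ∀ a : A, (τ a : ℕ) = G.dist u a}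

noncomputable instance (G : SimpleGraph ℕ) (A : Finset ℕ) (N : ℕ) : Fintype (Ty G A N) := by
  classical
  exact Subtype.fintype _

noncomputable instance (G : SimpleGraph ℕ) (A : Finset ℕ) (N : ℕ) : DecidableEq (Ty G A N) := Classical.decEq _

variable {N : ℕ} {G : SimpleGraph ℕ} {A : Finset ℕ}

/-- The sup distance of two functions. -/
def dt (τ σ : Ty G A N) : ℕ := supd τ.1 σ.1

theorem dt_le_iff (τ σ : Ty G A N) (k : ℕ) :
    dt τ σ ≤ k ↔ ∀ a, ((τ.1 a : ℕ) - σ.1 a) + ((σ.1 a : ℕ) - τ.1 a) ≤ k := by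
  unfold dt supd
  rw [Finset.sup_le_iff]
  simp

theorem le_dt (τ σ : Ty G A N) (a : A) :
    ((τ.1 a : ℕ) - σ.1 a) + ((σ.1 a : ℕ) - τ.1 a) ≤ dt τ σ :=
  (dt_le_iff τ σ _).1 le_rfl a

theorem dt_self (τ : Ty G A N) : dt τ τ = 0 := by
  apply Nat.le_zero.1
  rw [dt_le_iff]
  intro a
  omega

theorem dt_comm (τ σ : Ty G A N) : dt τ σ = dt σ τ := by
  apply le_antisymm
  · rw [dt_le_iff]
    intro a
    have := le_dt σ τ a
    omega
  · rw [dt_le_iff]
    intro a
    have := le_dt τ σ a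
    omega

theorem dt_tri (τ σ υ : Ty G A N) : dt τ υ ≤ dt τ σ + dt σ υ := by
  rw [dt_le_iff]
  intro a
  have h1 := le_dt τ σ a
  have h2 := le_dt σ υ a
  omega

theorem dt_pos {τ σ : Ty G A N} (h : τ ≠ σ) : 1 ≤ dt τ σ := by
  by_contra hlt
  apply h
  apply Subtype.ext
  funext a
  apply Fin.ext
  have := le_dt τ σ a
  omega

theorem ty_pos (h : Univ N G) (τ : Ty G A N) (a : A) : 1 ≤ (τ.1 a : ℕ) := by
  obtain ⟨u, hu, hτ⟩ := τ.2
  rw [hτ a]
  rcases Nat.eq_zero_or_pos (G.dist u a) with h0 | h0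
  · exfalso
    apply hu
    rw [h.1.dist_eq_zero_iff.1 h0]
    exact a.2
  · exact h0

theorem ty_le (h : Univ N G) (τ : Ty G A N) (a b : A) : (τ.1 a : ℕ) ≤ G.dist a b + τ.1 b := by
  obtain ⟨u, hu, hτ⟩ := τ.2
  rw [hτ a, hτ b]
  have h1 : G.dist u a ≤ G.dist u b + G.dist b a := h.1.dist_triangle
  have h2 : G.dist (b : ℕ) a = G.dist (a : ℕ) b := SimpleGraph.dist_comm
  omega

theorem ty_ge (h : Univ N G) (τ : Ty G A N) (a b : A) : G.dist a b ≤ (τ.1 a : ℕ) + τ.1 b := by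
  obtain ⟨u, hu, hτ⟩ := τ.2
  rw [hτ a, hτ b]
  have h1 : G.dist (a : ℕ) b ≤ G.dist a u + G.dist u b := h.1.dist_triangle
  have h2 : G.dist (a : ℕ) u = G.dist u a := SimpleGraph.dist_comm
  omega

theorem dt_le_add (h : Univ N G) (τ σ : Ty G A N) (a : A) : dt τ σ ≤ (τ.1 a : ℕ) + σ.1 a := by
  rw [dt_le_iff]
  intro b
  have h1 := ty_le h τ b a
  have h2 := ty_ge h σ b a
  have h3 := ty_le h σ b a
  have h4 := ty_ge h τ b a
  omega

theorem dt_le_N (τ σ : Ty G A N) : dt τ σ ≤ N := by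
  rw [dt_le_iff]
  intro a
  have h1 := (τ.1 a).2
  have h2 := (σ.1 a).2
  omega

/-- The upper bound given by `A`. -/
def up (τ σ : Ty G A N) : ℕ := N - univ.sup fun a => N - ((τ.1 a : ℕ) + σ.1 a)

theorem le_up_iff (τ σ : Ty G A N) (x : ℕ) : x ≤ up τ σ ↔ x ≤ N ∧ ∀ a, x ≤ (τ.1 a : ℕ) + σ.1 a := by
  have h1 : ∀ y, (univ.sup fun a => N - ((τ.1 a : ℕ) + σ.1 a)) ≤ y ↔ ∀ a, N - ((τ.1 a : ℕ) + σ.1 a) ≤ y := by
    intro y
    rw [Finset.sup_le_iff]
    simp
  unfold up
  constructor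
  · intro hx
    have hxN : x ≤ N := by omega
    refine ⟨hxN, fun a => ?_⟩
    have h2 : (univ.sup fun a => N - ((τ.1 a : ℕ) + σ.1 a)) ≤ N := (h1 N).2 fun a => Nat.sub_le _ _
    have h3 := (h1 (N - x)).1 (by omega) a
    omega
  · rintro ⟨hxN, hx⟩
    have h3 := (h1 (N - x)).2 fun a => by
      have := hx a
      omega
    omega

theorem up_le_N (τ σ : Ty G A N) : up τ σ ≤ N := ((le_up_iff τ σ _).1 le_rfl).1

theorem up_le_add (τ σ : Ty G A N) (a : A) : up τ σ ≤ (τ.1 a : ℕ) + σ.1 a := ((le_up_iff τ σ _).1 le_rfl).2 a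

theorem up_comm (τ σ : Ty G A N) : up τ σ = up σ τ := by
  unfold up
  congr 2
  funext a
  rw [add_comm]

/-- Moving one of the two functions. -/
theorem up_le_up (τ σ υ : Ty G A N) : up τ υ ≤ up τ σ + dt σ υ := by
  have h1 : up τ υ - dt σ υ ≤ up τ σ := by
    rw [le_up_iff]
    have h2 := up_le_N τ υ
    refine ⟨by omega, fun a => ?_⟩
    have h3 := up_le_add τ υ a
    have h4 := le_dt σ υ a
    omega
  omega

variable {ι : Type} [Fintype ι]

/-- The distance of two cells. -/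
def rc (p q : Ty G A N × (ι → ZMod (2 * N + 1))) : ℕ := max (dt p.1 q.1) (min (dC p.2 q.2) (up p.1 q.1))

theorem rc_self (p : Ty G A N × (ι → ZMod (2 * N + 1))) : rc p p = 0 := by
  unfold rc
  rw [dt_self, dC_self]
  omega

theorem rc_comm (p q : Ty G A N × (ι → ZMod (2 * N + 1))) : rc p q = rc q p := by
  unfold rc
  rw [dt_comm, dC_comm, up_comm]

theorem dt_le_rc (p q : Ty G A N × (ι → ZMod (2 * N + 1))) : dt p.1 q.1 ≤ rc p q := le_max_left _ _

theorem rc_le_add (h : Univ N G) (p q : Ty G A N × (ι → ZMod (2 * N + 1))) (a : A) :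
    rc p q ≤ (p.1.1 a : ℕ) + q.1.1 a :=
  max_le (dt_le_add h _ _ a) (le_trans (min_le_right _ _) (up_le_add _ _ a))

theorem rc_le_N (p q : Ty G A N × (ι → ZMod (2 * N + 1))) : rc p q ≤ N :=
  max_le (dt_le_N _ _) (le_trans (min_le_right _ _) (up_le_N _ _))

theorem rc_pos (hN : 1 ≤ N) (h : Univ N G) {p q : Ty G A N × (ι → ZMod (2 * N + 1))} (hpq : p ≠ q) :
    1 ≤ rc p q := by
  by_cases h1 : p.1 = q.1
  · have h2 : p.2 ≠ q.2 := fun h' => hpq (Prod.ext h1 h')
    have h3 := dC_pos h2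
    have h4 : 1 ≤ up p.1 q.1 := by
      rw [le_up_iff]
      refine ⟨hN, fun a => ?_⟩
      have := ty_pos h p.1 a
      omega
    exact le_trans (le_min h3 h4) (le_max_right _ _)
  · exact le_trans (dt_pos h1) (dt_le_rc p q)

theorem rc_tri (p q r : Ty G A N × (ι → ZMod (2 * N + 1))) : rc p r ≤ rc p q + rc q r := by
  have h1 := dt_le_rc p q
  have h2 := dt_le_rc q r
  have h3 : min (dC p.2 q.2) (up p.1 q.1) ≤ rc p q := le_max_right _ _
  have h4 : min (dC q.2 r.2) (up q.1 r.1) ≤ rc q r := le_max_right _ _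
  have h5 := dt_tri p.1 q.1 r.1
  have h6 := dC_tri p.2 q.2 r.2
  have h7 := up_le_up p.1 q.1 r.1
  have h8 := up_le_up r.1 q.1 p.1
  rw [up_comm r.1 p.1, up_comm r.1 q.1, dt_comm q.1 p.1] at h8
  have h9 : min (dC p.2 r.2) (up p.1 r.1) ≤ rc p q + rc q r := by
    rcases le_total (dC p.2 q.2) (up p.1 q.1) with e1 | e1
    · rw [min_eq_left e1] at h3
      rcases le_total (dC q.2 r.2) (up q.1 r.1) with e2 | e2
      · rw [min_eq_left e2] at h4
        exact le_trans (min_le_left _ _) (by omega)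
      · rw [min_eq_right e2] at h4
        exact le_trans (min_le_right _ _) (by omega)
    · rw [min_eq_right e1] at h3
      exact le_trans (min_le_right _ _) (by omega)
  exact max_le (by omega) h9

/-- The function of a vertex outside `A`. -/
noncomputable def tyOf (h : Univ N G) (u : ℕ) (hu : u ∉ A) : Ty G A N :=
  ⟨fun a => ⟨G.dist u a, Nat.lt_succ_of_le (dist_le h _ _)⟩, u, hu, fun _ => rfl⟩

theorem tyOf_val (h : Univ N G) (u : ℕ) (hu : u ∉ A) (a : A) : ((tyOf h u hu).1 a : ℕ) = G.dist u a := rfl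

/-- A distance realised in `G` is reproduced. -/
theorem rc_real (h : Univ N G) {u v : ℕ} (hu : u ∉ A) (hv : v ∉ A) (c c' : ι → ZMod (2 * N + 1))
    (hc : dC c c' = G.dist u v) : rc (tyOf h u hu, c) (tyOf h v hv, c') = G.dist u v := by
  have h1 : dt (tyOf h u hu) (tyOf h v hv) ≤ G.dist u v := by
    rw [dt_le_iff]
    intro a
    rw [tyOf_val, tyOf_val]
    have h1 : G.dist u a ≤ G.dist u v + G.dist v a := h.1.dist_triangle
    have h2 : G.dist v a ≤ G.dist v u + G.dist u a := h.1.dist_triangle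
    have h3 : G.dist v u = G.dist u v := SimpleGraph.dist_comm
    omega
  have h2 : G.dist u v ≤ up (tyOf h u hu) (tyOf h v hv) := by
    rw [le_up_iff]
    refine ⟨dist_le h _ _, fun a => ?_⟩
    rw [tyOf_val, tyOf_val]
    have h1 : G.dist u v ≤ G.dist u a + G.dist a v := h.1.dist_triangle
    have h2 : G.dist (a : ℕ) v = G.dist v a := SimpleGraph.dist_comm
    omega
  unfold rc
  rw [hc]
  show max (dt (tyOf h u hu) (tyOf h v hv)) (min (G.dist u v) (up (tyOf h u hu) (tyOf h v hv))) = G.dist u v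
  rw [min_eq_left h2, max_eq_right h1]

end Pool.Agent.H23.UT
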