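import Mathlib

/-!
# Statements `∃ x ∀ y ∃ z ∀ w ∃ v θ` in a graph, with a single `y`: definitions
-/

set_option autoImplicit false

namespace Pool.Agent.H23.UT

/-- The places of the points `x` (`a` of them), `y` (one), `z` (`c`), `w` (`e`). -/
abbrev Pr (a c e : ℕ) : Type := Fin a ⊕ Fin 1 ⊕ Fin c ⊕ Fin e

/-- The condition `θ` holds in `G` at the points `p` (that is, `x, y, z, w`) and `v`. Here `θ` is any condition on
four things: which of all the points are equal, which are adjacent, the distances among `x, y, z, w`, and the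
distances between the `x i` and the `v j`. A quantifier-free formula of the language of graphs is such a `θ` (it
uses only the first two). -/
def Hol {X : Type} (G : SimpleGraph X) {a c e g : ℕ} (p : Pr a c e → X) (v : Fin g → X)
    (θ : (Pr a c e ⊕ Fin g → Pr a c e ⊕ Fin g → Prop) → (Pr a c e ⊕ Fin g → Pr a c e ⊕ Fin g → Prop) →
      (Pr a c e → Pr a c e → ℕ∞) → (Fin a → Fin g → ℕ∞) → Prop) : Prop :=
  θ (fun i j => Sum.elim p v i = Sum.elim p v j) (fun i j => G.Adj (Sum.elim p v i) (Sum.elim p v j))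
    (fun i j => G.edist (p i) (p j)) (fun i j => G.edist (p (Sum.inl i)) (v j))

/-- The statement `∃ x₁ … x_a ∀ y ∃ z₁ … z_c ∀ w₁ … w_e ∃ v₁ … v_g θ` in the graph `G`. -/
def EAEAE {X : Type} (G : SimpleGraph X) (a c e g : ℕ)
    (θ : (Pr a c e ⊕ Fin g → Pr a c e ⊕ Fin g → Prop) → (Pr a c e ⊕ Fin g → Pr a c e ⊕ Fin g → Prop) →
      (Pr a c e → Pr a c e → ℕ∞) → (Fin a → Fin g → ℕ∞) → Prop) : Prop :=
  ∃ x : Fin a → X, ∀ y : X, ∃ z : Fin c → X, ∀ w : Fin e → X, ∃ v : Fin g → X,
    Hol G (Sum.elim x (Sum.elim (fun _ => y) (Sum.elim z w))) v θ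

end Pool.Agent.H23.UT
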