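import Mathlib

/-!
# Statements `∃ x ∀ y ∃ z ∀ w θ` on distances in a graph, with a single `y`: definition
-/

set_option autoImplicit false

namespace Pool.Agent.H23.UT

/-- The statement `∃ x₁ … x_a ∀ y ∃ z₁ … z_c ∀ w₁ … w_e θ` in the graph `G`, where `θ` is any condition on the
distances between the points `x, y, z, w` (so also on equality and adjacency). -/
def EAEA {X : Type} (G : SimpleGraph X) (a c e : ℕ)
    (θ : (Fin a ⊕ Fin 1 ⊕ Fin c ⊕ Fin e → Fin a ⊕ Fin 1 ⊕ Fin c ⊕ Fin e → ℕ∞) → Prop) : Prop :=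
  ∃ x : Fin a → X, ∀ y : X, ∃ z : Fin c → X, ∀ w : Fin e → X,
    θ fun i j => G.edist (Sum.elim x (Sum.elim (fun _ => y) (Sum.elim z w)) i)
      (Sum.elim x (Sum.elim (fun _ => y) (Sum.elim z w)) j)

end Pool.Agent.H23.UT
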