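import Pool.Agent.H23.UT.Cel
import Pool.Agent.H23.US.Iso

/-!
# [H23 UT Gen] Every diameter: one block of cells over `A`, an isometric subgraph
-/

set_option autoImplicit false

open Finset

namespace Pool.Agent.H23.UT

open Pool.Agent.H23.US

/-- One step towards `y` on the cycle. -/
theorem cd_step {N : ℕ} (x y : ZMod (2 * N + 1)) : ∃ x₁, cd x x₁ ≤ 1 ∧ cd x₁ y ≤ cd x y - 1 := by
  by_cases hxy : x = y
  · exact ⟨x, by rw [cd_self]; omega, by rw [hxy, cd_self]⟩
  have hpos := cd_pos hxy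
  have hle := cd_le x y
  set δ : ℤ := (x - y).valMinAbs with hδ
  have hcd : cd x y = δ.natAbs := rfl
  have hxd : x - y = (δ : ZMod (2 * N + 1)) := by
    rw [hδ, ZMod.coe_valMinAbs]
  rcases le_or_gt 0 δ with h0 | h0
  · refine ⟨x - 1, ?_, ?_⟩
    · have h1 : x - (x - 1) = (((1 : ℤ)) : ZMod (2 * N + 1)) := by
        push_cast
        ring
      have h2 : ((((1 : ℤ)) : ZMod (2 * N + 1))).valMinAbs = 1 := by
        rw [ZMod.valMinAbs_spec]
        refine ⟨rfl, ?_⟩
        rw [Set.mem_Ioc]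
        push_cast
        omega
      unfold cd
      rw [h1, h2]
      norm_num
    · have h1 : (x - 1) - y = ((δ - 1 : ℤ) : ZMod (2 * N + 1)) := by
        push_cast
        rw [← hxd]
        ring
      have h2 : (((δ - 1 : ℤ) : ZMod (2 * N + 1))).valMinAbs = δ - 1 := by
        rw [ZMod.valMinAbs_spec]
        refine ⟨rfl, ?_⟩
        rw [Set.mem_Ioc]
        push_cast
        omega
      have h3 : cd (x - 1) y = (δ - 1).natAbs := by
        unfold cd
        rw [h1, h2]
      rw [h3]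
      omega
  · refine ⟨x + 1, ?_, ?_⟩
    · have h1 : x - (x + 1) = (((-1 : ℤ)) : ZMod (2 * N + 1)) := by
        push_cast
        ring
      have h2 : ((((-1 : ℤ)) : ZMod (2 * N + 1))).valMinAbs = -1 := by
        rw [ZMod.valMinAbs_spec]
        refine ⟨rfl, ?_⟩
        rw [Set.mem_Ioc]
        push_cast
        omega
      unfold cd
      rw [h1, h2]
      norm_num
    · have h1 : (x + 1) - y = ((δ + 1 : ℤ) : ZMod (2 * N + 1)) := by
        push_cast
        rw [← hxd]
        ring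
      have h2 : (((δ + 1 : ℤ) : ZMod (2 * N + 1))).valMinAbs = δ + 1 := by
        rw [ZMod.valMinAbs_spec]
        refine ⟨rfl, ?_⟩
        rw [Set.mem_Ioc]
        push_cast
        omega
      have h3 : cd (x + 1) y = (δ + 1).natAbs := by
        unfold cd
        rw [h1, h2]
      rw [h3]
      omega

/-- One step towards `c'` in the torus. -/
theorem dC_step {N : ℕ} {ι : Type} [Fintype ι] (c c' : ι → ZMod (2 * N + 1)) :
    ∃ c₁, dC c c₁ ≤ 1 ∧ dC c₁ c' ≤ dC c c' - 1 := by
  choose s hs1 hs2 using fun i => cd_step (c i) (c' i)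
  refine ⟨s, ?_, ?_⟩
  · rw [dC_le_iff]
    exact hs1
  · rw [dC_le_iff]
    intro i
    have h1 := hs2 i
    have h2 := le_dC c c' i
    omega

/-- Property (Y). -/
def ConfN (G : SimpleGraph ℕ) (A W : Finset ℕ) (ι : Type) : Prop :=
  ∀ y ∈ W, ∀ z : ι → ℕ, ∃ z' : ι → ℕ, (∀ i, z' i ∈ W) ∧ (∀ i j, G.dist (z' i) (z' j) = G.dist (z i) (z j)) ∧
    (∀ i, G.dist (z' i) y = G.dist (z i) y) ∧ ∀ i, ∀ a ∈ A, G.dist (z' i) a = G.dist (z i) a

/-- Geodesics start in `W`. -/
def GeoN (G : SimpleGraph ℕ) (W : Finset ℕ) : Prop :=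
  ∀ w ∈ W, ∀ w' ∈ W, ∀ m, G.dist w w' = m + 2 → ∃ w₁ ∈ W, G.Adj w w₁ ∧ G.dist w₁ w' ≤ m + 1

section

variable {N : ℕ} {G : SimpleGraph ℕ} {A : Finset ℕ} {ι : Type} [Fintype ι]

/-- All distances. -/
private noncomputable def RN : A ⊕ (Ty G A N × (ι → ZMod (2 * N + 1))) → A ⊕ (Ty G A N × (ι → ZMod (2 * N + 1))) → ℕ
  | Sum.inl a, Sum.inl b => G.dist a b
  | Sum.inl a, Sum.inr p => p.1.1 a
  | Sum.inr p, Sum.inl a => p.1.1 a
  | Sum.inr p, Sum.inr q => rc p q

private theorem RN_self : ∀ i : A ⊕ (Ty G A N × (ι → ZMod (2 * N + 1))), RN i i = 0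
  | Sum.inl _ => SimpleGraph.dist_self
  | Sum.inr p => rc_self p

private theorem RN_comm : ∀ i j : A ⊕ (Ty G A N × (ι → ZMod (2 * N + 1))), RN i j = RN j i
  | Sum.inl _, Sum.inl _ => SimpleGraph.dist_comm
  | Sum.inl _, Sum.inr _ => rfl
  | Sum.inr _, Sum.inl _ => rfl
  | Sum.inr p, Sum.inr q => rc_comm p q

private theorem RN_le (h : Univ N G) : ∀ i j : A ⊕ (Ty G A N × (ι → ZMod (2 * N + 1))), RN i j ≤ N
  | Sum.inl _, Sum.inl _ => dist_le h _ _
  | Sum.inl a, Sum.inr p => Nat.le_of_lt_succ (p.1.1 a).2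
  | Sum.inr p, Sum.inl a => Nat.le_of_lt_succ (p.1.1 a).2
  | Sum.inr p, Sum.inr q => rc_le_N p q

private theorem RN_tri (h : Univ N G) :
    ∀ i j k : A ⊕ (Ty G A N × (ι → ZMod (2 * N + 1))), RN i k ≤ RN i j + RN j k
  | Sum.inl a, Sum.inl b, Sum.inl c => h.1.dist_triangle
  | Sum.inl a, Sum.inl b, Sum.inr p => ty_le h p.1 a b
  | Sum.inl a, Sum.inr p, Sum.inl c => ty_ge h p.1 a c
  | Sum.inr p, Sum.inl b, Sum.inl c => by
    show (p.1.1 c : ℕ) ≤ p.1.1 b + G.dist b c
    have h1 := ty_le h p.1 c b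
    have h2 : G.dist (c : ℕ) b = G.dist (b : ℕ) c := SimpleGraph.dist_comm
    omega
  | Sum.inl a, Sum.inr p, Sum.inr q => by
    show (q.1.1 a : ℕ) ≤ p.1.1 a + rc p q
    have h1 := dt_le_rc p q
    have h2 := le_dt p.1 q.1 a
    omega
  | Sum.inr p, Sum.inr q, Sum.inl a => by
    show (p.1.1 a : ℕ) ≤ rc p q + q.1.1 a
    have h1 := dt_le_rc p q
    have h2 := le_dt p.1 q.1 a
    omega
  | Sum.inr p, Sum.inl a, Sum.inr q => rc_le_add h p q a
  | Sum.inr p, Sum.inr q, Sum.inr r => rc_tri p q r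

end

/-- **The set `W`, every diameter.** -/
theorem exists_WN {N : ℕ} {G : SimpleGraph ℕ} (h : Univ N G) (A : Finset ℕ) (hA : A.Nonempty)
    (κ : Type) [Fintype κ] : ∃ W : Finset ℕ, A ⊆ W ∧ GeoN G W ∧ ConfN G A W κ := by
  classical
  obtain ⟨f, hf1, hf2⟩ := points_over h A hA (RN (N := N) (G := G) (A := A) (ι := Option κ)) RN_self RN_comm
    (RN_tri h) (RN_le h) (fun _ _ => rfl)
  have hrep : ∀ q ∈ univ.image f, q ∉ A → ∃ p, f (Sum.inr p) = q := by
    intro q hq hqA
    obtain ⟨x, _, rfl⟩ := mem_image.1 hq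
    rcases x with a | p
    · exfalso
      apply hqA
      rw [hf1]
      exact a.2
    · exact ⟨p, rfl⟩
  have hout : ∀ p, f (Sum.inr p) ∉ A := by
    intro p hp
    have h1 := hf2 (Sum.inr p) (Sum.inl ⟨_, hp⟩)
    rw [hf1, SimpleGraph.dist_self] at h1
    change 0 = (p.1.1 ⟨_, hp⟩ : ℕ) at h1
    have h2 := ty_pos h p.1 ⟨_, hp⟩
    omega
  have hval : ∀ p (a : A), G.dist (f (Sum.inr p)) a = (p.1.1 a : ℕ) := by
    intro p a
    have h1 := hf2 (Sum.inr p) (Sum.inl a)
    rw [hf1] at h1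
    exact h1
  have hty : ∀ p, tyOf h (f (Sum.inr p)) (hout p) = p.1 := by
    intro p
    apply Subtype.ext
    funext a
    apply Fin.ext
    rw [tyOf_val, hval]
  have hAW : ∀ a ∈ A, a ∈ univ.image f := fun a ha => mem_image.2 ⟨Sum.inl ⟨a, ha⟩, mem_univ _, hf1 ⟨a, ha⟩⟩
  refine ⟨univ.image f, hAW, ?_, ?_⟩
  · -- geodesics
    intro w hw w' hw' m hm
    by_cases hw'A : w' ∈ A
    · -- towards a point of `A`
      obtain ⟨u, hu1, hu2⟩ := geo h hm
      by_cases huA : u ∈ A
      · exact ⟨u, hAW u huA, hu1, hu2.le⟩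
      by_cases hwA : w ∈ A
      · refine ⟨f (Sum.inr (tyOf h u huA, fun _ => 0)), mem_image.2 ⟨_, mem_univ _, rfl⟩, ?_, ?_⟩
        · rw [← SimpleGraph.dist_eq_one_iff_adj, SimpleGraph.dist_comm, hval _ ⟨w, hwA⟩]
          show ((tyOf h u huA).1 ⟨w, hwA⟩ : ℕ) = 1
          rw [tyOf_val, SimpleGraph.dist_comm]
          exact SimpleGraph.dist_eq_one_iff_adj.2 hu1
        · rw [hval _ ⟨w', hw'A⟩]
          show ((tyOf h u huA).1 ⟨w', hw'A⟩ : ℕ) ≤ m + 1
          rw [tyOf_val]
          exact hu2.le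
      · obtain ⟨p, rfl⟩ := hrep w hw hwA
        refine ⟨f (Sum.inr (tyOf h u huA, p.2)), mem_image.2 ⟨_, mem_univ _, rfl⟩, ?_, ?_⟩
        · rw [← SimpleGraph.dist_eq_one_iff_adj, hf2]
          show rc p (tyOf h u huA, p.2) = 1
          have h1 : dt p.1 (tyOf h u huA) ≤ 1 := by
            rw [dt_le_iff]
            intro a
            rw [tyOf_val, ← hval p a]
            have e1 : G.dist (f (Sum.inr p)) a ≤ G.dist (f (Sum.inr p)) u + G.dist u a := h.1.dist_triangle
            have e2 : G.dist u a ≤ G.dist u (f (Sum.inr p)) + G.dist (f (Sum.inr p)) a := h.1.dist_triangle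
            rw [SimpleGraph.dist_eq_one_iff_adj.2 hu1] at e1
            rw [SimpleGraph.dist_eq_one_iff_adj.2 hu1.symm] at e2
            omega
          have h2 : p.1 ≠ tyOf h u huA := by
            intro h'
            have e1 : (p.1.1 ⟨w', hw'A⟩ : ℕ) = G.dist u w' := by
              rw [h', tyOf_val]
            rw [← hval p ⟨w', hw'A⟩] at e1
            change G.dist (f (Sum.inr p)) w' = _ at e1
            omega
          have h3 := dt_pos h2
          unfold rc
          rw [dC_self]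
          show max (dt p.1 (tyOf h u huA)) (min 0 _) = 1
          rw [Nat.zero_min, Nat.max_zero]
          omega
        · rw [hval _ ⟨w', hw'A⟩]
          show ((tyOf h u huA).1 ⟨w', hw'A⟩ : ℕ) ≤ m + 1
          rw [tyOf_val]
          exact hu2.le
    obtain ⟨q, rfl⟩ := hrep w' hw' hw'A
    by_cases hwA : w ∈ A
    · -- from a point of `A`
      obtain ⟨u, hu1, hu2⟩ := geo h hm
      by_cases huA : u ∈ A
      · exact ⟨u, hAW u huA, hu1, hu2.le⟩
      refine ⟨f (Sum.inr (tyOf h u huA, q.2)), mem_image.2 ⟨_, mem_univ _, rfl⟩, ?_, ?_⟩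
      · rw [← SimpleGraph.dist_eq_one_iff_adj, SimpleGraph.dist_comm, hval _ ⟨w, hwA⟩]
        show ((tyOf h u huA).1 ⟨w, hwA⟩ : ℕ) = 1
        rw [tyOf_val, SimpleGraph.dist_comm]
        exact SimpleGraph.dist_eq_one_iff_adj.2 hu1
      · rw [hf2]
        show rc (tyOf h u huA, q.2) q ≤ m + 1
        have h1 : dt (tyOf h u huA) q.1 ≤ m + 1 := by
          rw [dt_le_iff]
          intro a
          rw [tyOf_val, ← hval q a]
          have e1 : G.dist (f (Sum.inr q)) a ≤ G.dist (f (Sum.inr q)) u + G.dist u a := h.1.dist_triangle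
          have e2 : G.dist u a ≤ G.dist u (f (Sum.inr q)) + G.dist (f (Sum.inr q)) a := h.1.dist_triangle
          have e3 : G.dist (f (Sum.inr q)) u = G.dist u (f (Sum.inr q)) := SimpleGraph.dist_comm
          omega
        unfold rc
        show max (dt (tyOf h u huA) q.1) (min (dC q.2 q.2) (up (tyOf h u huA) q.1)) ≤ m + 1
        rw [dC_self, Nat.zero_min, Nat.max_zero]
        exact h1
    -- both points outside `A`
    obtain ⟨p, rfl⟩ := hrep w hw hwA
    have hpq : rc p q = m + 2 := by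
      rw [← hm, hf2]
      rfl
    have hclose : ∀ u, G.Adj (f (Sum.inr p)) u → ∀ huA : u ∉ A, dt p.1 (tyOf h u huA) ≤ 1 := by
      intro u hu1 huA
      rw [dt_le_iff]
      intro a
      rw [tyOf_val, ← hval p a]
      have e1 : G.dist (f (Sum.inr p)) a ≤ G.dist (f (Sum.inr p)) u + G.dist u a := h.1.dist_triangle
      have e2 : G.dist u a ≤ G.dist u (f (Sum.inr p)) + G.dist (f (Sum.inr p)) a := h.1.dist_triangle
      rw [SimpleGraph.dist_eq_one_iff_adj.2 hu1] at e1
      rw [SimpleGraph.dist_eq_one_iff_adj.2 hu1.symm] at e2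
      omega
    by_cases hbig : dC p.2 q.2 ≤ m + 2
    · -- along the torus
      obtain ⟨u, hu1, hu2⟩ := geo h hm
      by_cases huA : u ∈ A
      · exact ⟨u, hAW u huA, hu1, hu2.le⟩
      obtain ⟨c₁, hc1, hc2⟩ := dC_step p.2 q.2
      have h1 := hclose u hu1 huA
      have h2 : dt (tyOf h u huA) q.1 ≤ m + 1 := by
        rw [dt_le_iff]
        intro a
        rw [tyOf_val, ← hval q a]
        have e1 : G.dist (f (Sum.inr q)) a ≤ G.dist (f (Sum.inr q)) u + G.dist u a := h.1.dist_triangle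
        have e2 : G.dist u a ≤ G.dist u (f (Sum.inr q)) + G.dist (f (Sum.inr q)) a := h.1.dist_triangle
        have e3 : G.dist (f (Sum.inr q)) u = G.dist u (f (Sum.inr q)) := SimpleGraph.dist_comm
        omega
      have h3 : rc (tyOf h u huA, c₁) q ≤ m + 1 := by
        unfold rc
        show max (dt (tyOf h u huA) q.1) (min (dC c₁ q.2) (up (tyOf h u huA) q.1)) ≤ m + 1
        exact max_le h2 (le_trans (min_le_left _ _) (by omega))
      have h4 : rc p (tyOf h u huA, c₁) ≤ 1 := by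
        unfold rc
        show max (dt p.1 (tyOf h u huA)) (min (dC p.2 c₁) (up p.1 (tyOf h u huA))) ≤ 1
        exact max_le h1 (le_trans (min_le_left _ _) hc1)
      have h5 := rc_tri p (tyOf h u huA, c₁) q
      refine ⟨f (Sum.inr (tyOf h u huA, c₁)), mem_image.2 ⟨_, mem_univ _, rfl⟩, ?_, ?_⟩
      · rw [← SimpleGraph.dist_eq_one_iff_adj, hf2]
        show rc p (tyOf h u huA, c₁) = 1
        omega
      · rw [hf2]
        exact h3
    · -- through a point of `A`
      have hup : up p.1 q.1 ≤ m + 2 := by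
        unfold rc at hpq
        have e1 : min (dC p.2 q.2) (up p.1 q.1) ≤ m + 2 := by
          rw [← hpq]
          exact le_max_right _ _
        rcases le_total (dC p.2 q.2) (up p.1 q.1) with e2 | e2
        · rw [min_eq_left e2] at e1
          omega
        · rwa [min_eq_right e2] at e1
      have hNm : m + 3 ≤ N := by
        have := dC_le p.2 q.2
        omega
      have ha : ∃ a : A, (p.1.1 a : ℕ) + q.1.1 a ≤ m + 2 := by
        by_contra hno
        push Not at hno
        have : m + 3 ≤ up p.1 q.1 := by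
          rw [le_up_iff]
          exact ⟨hNm, fun a => hno a⟩
        omega
      obtain ⟨a, ha⟩ := ha
      have hp1 := ty_pos h p.1 a
      by_cases hone : (p.1.1 a : ℕ) = 1
      · refine ⟨a, hAW a a.2, ?_, ?_⟩
        · rw [← SimpleGraph.dist_eq_one_iff_adj, hval]
          exact hone
        · rw [SimpleGraph.dist_comm, hval]
          omega
      · obtain ⟨s, hs⟩ : ∃ s, (p.1.1 a : ℕ) = s + 1 := ⟨(p.1.1 a : ℕ) - 1, by omega⟩
        have hds : G.dist (f (Sum.inr p)) a = s + 1 := by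
          rw [hval, hs]
        obtain ⟨u, hu1, hu2⟩ := geo h hds
        by_cases huA : u ∈ A
        · refine ⟨u, hAW u huA, hu1, ?_⟩
          have e1 : G.dist u (f (Sum.inr q)) ≤ G.dist u a + G.dist (a : ℕ) (f (Sum.inr q)) := h.1.dist_triangle
          have e2 : G.dist (a : ℕ) (f (Sum.inr q)) = G.dist (f (Sum.inr q)) a := SimpleGraph.dist_comm
          rw [e2, hval] at e1
          omega
        · have h1 := hclose u hu1 huA
          have h2 : p.1 ≠ tyOf h u huA := by
            intro h'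
            have e1 : (p.1.1 a : ℕ) = G.dist u a := by
              rw [h', tyOf_val]
            omega
          have h3 := dt_pos h2
          refine ⟨f (Sum.inr (tyOf h u huA, p.2)), mem_image.2 ⟨_, mem_univ _, rfl⟩, ?_, ?_⟩
          · rw [← SimpleGraph.dist_eq_one_iff_adj, hf2]
            show rc p (tyOf h u huA, p.2) = 1
            unfold rc
            show max (dt p.1 (tyOf h u huA)) (min (dC p.2 p.2) _) = 1
            rw [dC_self, Nat.zero_min, Nat.max_zero]
            omega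
          · rw [hf2]
            show rc (tyOf h u huA, p.2) q ≤ m + 1
            have e1 := rc_le_add h (tyOf h u huA, p.2) q a
            have e2 : ((tyOf h u huA).1 a : ℕ) = G.dist u a := tyOf_val h u huA a
            change rc (tyOf h u huA, p.2) q ≤ ((tyOf h u huA).1 a : ℕ) + q.1.1 a at e1
            omega
  · -- configurations
    intro y hy z
    have hbase : ∃ c₀ : Option κ → ZMod (2 * N + 1), ∀ hyA : y ∉ A, f (Sum.inr (tyOf h y hyA, c₀)) = y := by
      by_cases hyA : y ∈ A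
      · exact ⟨fun _ => 0, fun h' => (h' hyA).elim⟩
      · obtain ⟨p, hp⟩ := hrep y hy hyA
        refine ⟨p.2, fun _ => ?_⟩
        have h1 : tyOf h y hyA = p.1 := by
          have := hty p
          subst hp
          exact this
        rw [h1]
        exact hp
    obtain ⟨c₀, hyc⟩ := hbase
    let q : Option κ → ℕ := fun o => o.elim y z
    let ψ : ℕ → A ⊕ (Ty G A N × (Option κ → ZMod (2 * N + 1))) := fun u =>
      if hu : u ∈ A then Sum.inl ⟨u, hu⟩ else Sum.inr (tyOf h u hu, phi G q c₀ y u)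
    have hψA : ∀ u (hu : u ∈ A), ψ u = Sum.inl ⟨u, hu⟩ := fun u hu => dif_pos hu
    have hψN : ∀ u (hu : u ∉ A), ψ u = Sum.inr (tyOf h u hu, phi G q c₀ y u) := fun u hu => dif_neg hu
    have hfA : ∀ u ∈ A, f (ψ u) = u := by
      intro u hu
      rw [hψA u hu, hf1]
    have hfy : f (ψ y) = y := by
      by_cases hyA : y ∈ A
      · exact hfA y hyA
      · rw [hψN y hyA, phi_base]
        exact hyc hyA
    have hdist : ∀ u v, (∃ o, q o = v) → G.dist (f (ψ u)) (f (ψ v)) = G.dist u v := by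
      rintro u v ⟨o, rfl⟩
      by_cases hu : u ∈ A <;> by_cases hv : q o ∈ A
      · rw [hfA u hu, hfA _ hv]
      · rw [hfA u hu, hψN _ hv]
        have h1 := hval (tyOf h (q o) hv, phi G q c₀ y (q o)) ⟨u, hu⟩
        rw [SimpleGraph.dist_comm, h1]
        show ((tyOf h (q o) hv).1 ⟨u, hu⟩ : ℕ) = G.dist u (q o)
        rw [tyOf_val, SimpleGraph.dist_comm]
      · rw [hfA _ hv, hψN u hu]
        exact hval (tyOf h u hu, phi G q c₀ y u) ⟨_, hv⟩
      · rw [hψN u hu, hψN _ hv, hf2]
        exact rc_real h hu hv _ _ (phi_dist h q c₀ y u o)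
    refine ⟨fun i => f (ψ (z i)), fun i => mem_image.2 ⟨_, mem_univ _, rfl⟩, ?_, ?_, ?_⟩
    · intro i j
      exact hdist (z i) (z j) ⟨some j, rfl⟩
    · intro i
      have h1 := hdist (z i) y ⟨none, rfl⟩
      rwa [hfy] at h1
    · intro i a ha
      by_cases hi : z i ∈ A
      · show G.dist (f (ψ (z i))) a = _
        rw [hfA _ hi]
      · show G.dist (f (ψ (z i))) a = _
        rw [hψN _ hi]
        exact hval (tyOf h (z i) hi, phi G q c₀ y (z i)) ⟨a, ha⟩

end Pool.Agent.H23.UT
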