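import Pool.Agent.H23.UT.Blk
import Pool.Agent.H23.UT.Defs
import Pool.Agent.H23.US.Main

/-!
# [H23 UT Main] Assembly
-/

set_option autoImplicit false

open Finset

namespace Pool.Agent.H23.UT

open Pool.Agent.H23.US

/-- The matrices. -/
private abbrev Th (a c e g : ℕ) : Type :=
  (Pr a c e ⊕ Fin g → Pr a c e ⊕ Fin g → Prop) → (Pr a c e ⊕ Fin g → Pr a c e ⊕ Fin g → Prop) →
    (Pr a c e → Pr a c e → ℕ∞) → (Fin a → Fin g → ℕ∞) → Prop

private theorem hol_iso {X Y : Type} {G : SimpleGraph X} {H : SimpleGraph Y} (φ : G ≃g H) {a c e g : ℕ}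
    {p : Pr a c e → X} {v : Fin g → X} {θ : Th a c e g} (h : Hol G p v θ) :
    Hol H (fun i => φ (p i)) (fun i => φ (v i)) θ := by
  have hv : ∀ i, Sum.elim (fun i => φ (p i)) (fun i => φ (v i)) i = φ (Sum.elim p v i) := by
    rintro (i | i) <;> rfl
  have e1 : (fun i j => Sum.elim (fun i => φ (p i)) (fun i => φ (v i)) i =
      Sum.elim (fun i => φ (p i)) (fun i => φ (v i)) j) = fun i j => Sum.elim p v i = Sum.elim p v j := by
    funext i j
    rw [hv, hv]
    exact propext φ.injective.eq_iff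
  have e2 : (fun i j => H.Adj (Sum.elim (fun i => φ (p i)) (fun i => φ (v i)) i)
      (Sum.elim (fun i => φ (p i)) (fun i => φ (v i)) j)) =
      fun i j => G.Adj (Sum.elim p v i) (Sum.elim p v j) := by
    funext i j
    rw [hv, hv]
    exact propext φ.map_adj_iff
  have e3 : (fun i j => H.edist (φ (p i)) (φ (p j))) = fun i j => G.edist (p i) (p j) := by
    funext i j
    rw [edist_iso φ]
  have e4 : (fun (i : Fin a) (j : Fin g) => H.edist (φ (p (Sum.inl i))) (φ (v j))) =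
      fun i j => G.edist (p (Sum.inl i)) (v j) := by
    funext i j
    rw [edist_iso φ]
  show θ _ _ _ _
  rw [e1, e2, e3, e4]
  exact h

/-- Pulling the last points into `W`. -/
private theorem hol_sub {N : ℕ} {G : SimpleGraph ℕ} (h : Univ N G) {A W : Finset ℕ} {a c e g k : ℕ} (hAW : A ⊆ W)
    (hE : ExtG G A W k) (hk : 1 + c + e + g + 2 ≤ k) {p : Pr a c e → W} (hp : ∀ i, (p (Sum.inl i) : ℕ) ∈ A)
    {v : Fin g → ℕ} {θ : Th a c e g} (hh : Hol G (fun i => (p i : ℕ)) v θ) :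
    ∃ v' : Fin g → W, Hol (Sub G W) p v' θ := by
  classical
  have hid : Good2 G A W (A ∪ univ.image fun i => (p i : ℕ)) id := by
    refine ⟨⟨?_, fun _ _ _ _ h' => h', fun _ _ _ _ => Iff.rfl, fun _ _ _ _ => rfl⟩, fun _ _ _ _ h' => h'⟩
    intro u hu
    rcases mem_union.1 hu with h' | h'
    · exact hAW h'
    · obtain ⟨i, _, rfl⟩ := mem_image.1 h'
      exact (p i).2
  have hcard : ((A ∪ univ.image fun i => (p i : ℕ)) \ A).card + (univ.image v).card ≤ k := by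
    have h1 : ((A ∪ univ.image fun i => (p i : ℕ)) \ A).card ≤ 1 + (c + e) := by
      refine le_trans (card_le_card
        (t := univ.image fun i : Fin 1 ⊕ Fin c ⊕ Fin e => (p (Sum.inr i) : ℕ)) ?_) ?_
      · intro u hu
        rw [mem_sdiff, mem_union] at hu
        rcases hu.1 with h' | h'
        · exact (hu.2 h').elim
        · obtain ⟨i, _, rfl⟩ := mem_image.1 h'
          rcases i with i | i
          · exact (hu.2 (hp i)).elim
          · exact mem_image.2 ⟨i, mem_univ _, rfl⟩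
      · refine le_trans card_image_le ?_
        rw [card_univ, Fintype.card_sum, Fintype.card_sum, Fintype.card_fin, Fintype.card_fin, Fintype.card_fin]
    have h2 : (univ.image v).card ≤ g := by
      refine le_trans card_image_le ?_
      rw [card_univ, Fintype.card_fin]
    omega
  obtain ⟨f, hf1, hf2⟩ := hid.many h hE subset_union_left (univ.image v) hcard
  have hpD : ∀ i, (p i : ℕ) ∈ A ∪ univ.image fun i => (p i : ℕ) := fun i =>
    mem_union_right _ (mem_image.2 ⟨i, mem_univ _, rfl⟩)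
  have hvD : ∀ i, v i ∈ (A ∪ univ.image fun i => (p i : ℕ)) ∪ univ.image v := fun i =>
    mem_union_right _ (mem_image_of_mem _ (mem_univ i))
  refine ⟨fun i => ⟨f (v i), hf2.mem _ (hvD i)⟩, ?_⟩
  have hv : ∀ i : Pr a c e ⊕ Fin g, ((Sum.elim p (fun i => (⟨f (v i), hf2.mem _ (hvD i)⟩ : W)) i : W) : ℕ) =
      f (Sum.elim (fun i => (p i : ℕ)) v i) := by
    rintro (i | i)
    · exact (hf1 _ (hpD i)).symm
    · rfl
  have hvD' : ∀ i : Pr a c e ⊕ Fin g, Sum.elim (fun i => (p i : ℕ)) v i ∈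
      (A ∪ univ.image fun i => (p i : ℕ)) ∪ univ.image v := by
    rintro (i | i)
    · exact mem_union_left _ (hpD i)
    · exact hvD i
  have e1 : (fun i j : Pr a c e ⊕ Fin g => Sum.elim p (fun i => (⟨f (v i), hf2.mem _ (hvD i)⟩ : W)) i =
      Sum.elim p (fun i => (⟨f (v i), hf2.mem _ (hvD i)⟩ : W)) j) =
      fun i j => Sum.elim (fun i => (p i : ℕ)) v i = Sum.elim (fun i => (p i : ℕ)) v j := by
    funext i j
    rw [← Subtype.coe_inj, hv, hv]
    exact propext ⟨hf2.inj _ (hvD' i) _ (hvD' j), fun h' => by rw [h']⟩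
  have e2 : (fun i j : Pr a c e ⊕ Fin g =>
      (Sub G W).Adj (Sum.elim p (fun i => (⟨f (v i), hf2.mem _ (hvD i)⟩ : W)) i)
        (Sum.elim p (fun i => (⟨f (v i), hf2.mem _ (hvD i)⟩ : W)) j)) =
      fun i j => G.Adj (Sum.elim (fun i => (p i : ℕ)) v i) (Sum.elim (fun i => (p i : ℕ)) v j) := by
    funext i j
    rw [SimpleGraph.comap_adj, hv, hv]
    exact propext (hf2.adj _ (hvD' i) _ (hvD' j))
  have e3 : (fun i j => (Sub G W).edist (p i) (p j)) = fun i j => G.edist (p i : ℕ) (p j) := by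
    funext i j
    rw [sub_edist h hAW hE (by omega)]
  have e4 : (fun (i : Fin a) (j : Fin g) =>
      (Sub G W).edist (p (Sum.inl i)) (⟨f (v j), hf2.mem _ (hvD j)⟩ : W)) =
      fun i j => G.edist (p (Sum.inl i) : ℕ) (v j) := by
    funext i j
    rw [sub_edist h hAW hE (by omega)]
    show G.edist (p (Sum.inl i) : ℕ) (f (v j)) = _
    rw [← coe_dist h, ← coe_dist h, SimpleGraph.dist_comm, hf2.typ _ (hvD j) _ (hp i), SimpleGraph.dist_comm]
  show θ _ _ _ _
  rw [e1, e2, e3, e4]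
  exact hh

/-- Homogeneity for tuples indexed by a finite type. -/
private theorem homog {N : ℕ} {G : SimpleGraph ℕ} (h : Univ N G) {J : Type} [Fintype J] (p q : J → ℕ)
    (hpq : ∀ i j, G.dist (p i) (p j) = G.dist (q i) (q j)) : ∃ σ : G ≃g G, ∀ i, σ (p i) = q i := by
  let e := Fintype.equivFin J
  obtain ⟨σ, hσ⟩ := h.2.2.1 _ (fun i => p (e.symm i)) (fun i => q (e.symm i)) (by
    intro i j
    rw [← coe_dist h, ← coe_dist h, hpq])
  refine ⟨σ, fun i => ?_⟩
  have := hσ (e i)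
  simp only [e.symm_apply_apply] at this
  exact this

private theorem elim_iso {X Y : Type} (φ : X → Y) {a c e : ℕ} (x : Fin a → X) (y : X) (z : Fin c → X)
    (w : Fin e → X) :
    (fun i => φ (Sum.elim x (Sum.elim (fun _ : Fin 1 => y) (Sum.elim z w)) i)) =
      Sum.elim (fun i => φ (x i)) (Sum.elim (fun _ : Fin 1 => φ y)
        (Sum.elim (fun i => φ (z i)) fun i => φ (w i))) := by
  funext i
  rcases i with i | i | i | i <;> rfl

private theorem EAEAE_iso {X Y : Type} {G : SimpleGraph X} {H : SimpleGraph Y} (φ : G ≃g H) {a c e g : ℕ}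
    {θ : Th a c e g} (hG : EAEAE G a c e g θ) : EAEAE H a c e g θ := by
  obtain ⟨x, hx⟩ := hG
  refine ⟨fun i => φ (x i), fun y => ?_⟩
  obtain ⟨z, hz⟩ := hx (φ.symm y)
  refine ⟨fun i => φ (z i), fun w => ?_⟩
  obtain ⟨v, hv⟩ := hz fun i => φ.symm (w i)
  refine ⟨fun i => φ (v i), ?_⟩
  have h1 := hol_iso φ hv
  rw [elim_iso] at h1
  have h2 : φ (φ.symm y) = y := φ.apply_symm_apply y
  have h3 : (fun i => φ (φ.symm (w i))) = w := by
    funext i
    exact φ.apply_symm_apply (w i)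
  rw [h2, h3] at h1
  exact h1

/-- The transfer to `W`. -/
private theorem EAEAE_sub {N : ℕ} {G : SimpleGraph ℕ} (h : Univ N G) {A W : Finset ℕ} {a c e g : ℕ}
    (hA : ∀ x : Fin a → ℕ, ∃ σ : G ≃g G, ∀ i, σ (x i) ∈ A) (hAW : A ⊆ W)
    (hE : ExtG G A W (1 + c + e + g + 2)) (hC : ConfG G A W (Fin c)) {θ : Th a c e g}
    (hG : EAEAE G a c e g θ) : EAEAE (Sub G W) a c e g θ := by
  classical
  obtain ⟨x₀, hx₀⟩ := hG
  obtain ⟨σ, hσ⟩ := hA x₀
  refine ⟨fun i => ⟨σ (x₀ i), hAW (hσ i)⟩, fun y => ?_⟩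
  obtain ⟨z₀, hz₀⟩ := hx₀ (σ.symm (y : ℕ))
  obtain ⟨z, hzW, hzz, hzy, hzA⟩ := hC y y.2 fun i => σ (z₀ i)
  -- the automorphism which fixes `x, y` and takes `σ z₀` to `z`
  obtain ⟨τ, hτ⟩ := homog h (J := Fin a ⊕ Fin 1 ⊕ Fin c)
    (Sum.elim (fun i => σ (x₀ i)) (Sum.elim (fun _ => (y : ℕ)) fun i => σ (z₀ i)))
    (Sum.elim (fun i => σ (x₀ i)) (Sum.elim (fun _ => (y : ℕ)) z)) (by
      rintro (i | i | i) (j | j | j)
      · rfl
      · rfl
      · show G.dist (σ (x₀ i)) (σ (z₀ j)) = G.dist (σ (x₀ i)) (z j)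
        rw [SimpleGraph.dist_comm, ← hzA j _ (hσ i), SimpleGraph.dist_comm]
      · rfl
      · rfl
      · show G.dist (y : ℕ) (σ (z₀ j)) = G.dist (y : ℕ) (z j)
        rw [SimpleGraph.dist_comm, ← hzy j, SimpleGraph.dist_comm]
      · exact (hzA i _ (hσ j)).symm
      · exact (hzy i).symm
      · exact (hzz i j).symm)
  have hτx : ∀ i, τ (σ (x₀ i)) = σ (x₀ i) := fun i => hτ (Sum.inl i)
  have hτy : τ (y : ℕ) = y := hτ (Sum.inr (Sum.inl 0))
  have hτz : ∀ i, τ (σ (z₀ i)) = z i := fun i => hτ (Sum.inr (Sum.inr i))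
  refine ⟨fun i => ⟨z i, hzW i⟩, fun w => ?_⟩
  obtain ⟨v₀, hv₀⟩ := hz₀ fun i => σ.symm (τ.symm (w i : ℕ))
  have h1 := hol_iso τ (hol_iso σ hv₀)
  rw [elim_iso (fun u => τ (σ u))] at h1
  have e1 : (fun i => τ (σ (x₀ i))) = fun i => ((⟨σ (x₀ i), hAW (hσ i)⟩ : W) : ℕ) := by
    funext i
    exact hτx i
  have e2 : τ (σ (σ.symm (y : ℕ))) = y := by
    rw [σ.apply_symm_apply]
    exact hτy
  have e3 : (fun i => τ (σ (z₀ i))) = fun i => ((⟨z i, hzW i⟩ : W) : ℕ) := by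
    funext i
    exact hτz i
  have e4 : (fun i => τ (σ (σ.symm (τ.symm (w i : ℕ))))) = fun i => ((w i : W) : ℕ) := by
    funext i
    rw [σ.apply_symm_apply, τ.apply_symm_apply]
  rw [e1, e2, e3, e4, ← elim_iso (fun u : W => (u : ℕ))] at h1
  exact hol_sub h hAW hE le_rfl (p := Sum.elim (fun i => (⟨σ (x₀ i), hAW (hσ i)⟩ : W))
    (Sum.elim (fun _ => y) (Sum.elim (fun i => ⟨z i, hzW i⟩) w))) (fun i => hσ i) h1

/-- **The theorem.** -/
theorem main {G : SimpleGraph ℕ} (h : Univ 3 G) (a c e g : ℕ) :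
    ∃ (n : ℕ) (H : SimpleGraph (Fin n)), H.Connected ∧ H.ediam = 3 ∧
      ∀ θ : (Pr a c e ⊕ Fin g → Pr a c e ⊕ Fin g → Prop) → (Pr a c e ⊕ Fin g → Pr a c e ⊕ Fin g → Prop) →
        (Pr a c e → Pr a c e → ℕ∞) → (Fin a → Fin g → ℕ∞) → Prop,
        EAEAE G a c e g θ → EAEAE H a c e g θ := by
  classical
  obtain ⟨A, hA1, hA2⟩ := exists_A h a
  have hA : A.Nonempty := by
    obtain ⟨p, hp, _⟩ := hA1
    exact ⟨p, hp⟩
  obtain ⟨W, hAW, hE, hC⟩ := exists_W h A hA (Fin c) (1 + c + e + g + 2)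
  have φe := Fintype.equivFin W
  have φ : Sub G W ≃g (Sub G W).map φe.toEmbedding := SimpleGraph.Iso.map φe (Sub G W)
  refine ⟨_, (Sub G W).map φe.toEmbedding, φ.connected_iff.1 (sub_conn h hA hAW hE (by omega)), ?_, ?_⟩
  · rw [ediam_iso φ, sub_ediam h hAW hE (by omega) hA1]
    rfl
  · intro θ hθ
    exact EAEAE_iso φ (EAEAE_sub h hA2 hAW hE hC hθ)

end Pool.Agent.H23.UT
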