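import Pool.Agent.H23.UT.Gen
import Pool.Agent.H23.UT.DefsN
import Pool.Agent.H23.US.Main

/-!
# [H23 UT MainN] Assembly, every diameter
-/

set_option autoImplicit false

open Finset

namespace Pool.Agent.H23.UT

open Pool.Agent.H23.US

private abbrev I4 (a c e : ℕ) : Type := Fin a ⊕ Fin 1 ⊕ Fin c ⊕ Fin e

private theorem homogN {N : ℕ} {G : SimpleGraph ℕ} (h : Univ N G) {J : Type} [Fintype J] (p q : J → ℕ)
    (hpq : ∀ i j, G.dist (p i) (p j) = G.dist (q i) (q j)) : ∃ σ : G ≃g G, ∀ i, σ (p i) = q i := by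
  let e := Fintype.equivFin J
  obtain ⟨σ, hσ⟩ := h.2.2.1 _ (fun i => p (e.symm i)) (fun i => q (e.symm i)) (by
    intro i j
    rw [← coe_dist h, ← coe_dist h, hpq])
  refine ⟨σ, fun i => ?_⟩
  have := hσ (e i)
  simp only [e.symm_apply_apply] at this
  exact this

private theorem elimN {X Y : Type} (φ : X → Y) {a c e : ℕ} (x : Fin a → X) (y : X) (z : Fin c → X) (w : Fin e → X)
    (i : I4 a c e) : φ (Sum.elim x (Sum.elim (fun _ : Fin 1 => y) (Sum.elim z w)) i) =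
      Sum.elim (fun i => φ (x i)) (Sum.elim (fun _ : Fin 1 => φ y)
        (Sum.elim (fun i => φ (z i)) fun i => φ (w i))) i := by
  rcases i with i | i | i | i <;> rfl

private theorem keyN {N : ℕ} {G : SimpleGraph ℕ} (h : Univ N G) {W : Finset ℕ} (hW : GeoN G W) :
    ∀ (m : ℕ) (w w' : W), G.dist (w : ℕ) w' = m → (Sub G W).edist w w' ≤ (m : ℕ∞) := by
  intro m
  induction m using Nat.strong_induction_on with
  | _ m ih =>
    intro w w' hm
    rcases m with _ | m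
    · have : w = w' := Subtype.ext (h.1.dist_eq_zero_iff.1 hm)
      rw [this, SimpleGraph.edist_self]
      exact le_rfl
    rcases m with _ | m
    · have h0 : G.Adj (w : ℕ) w' := SimpleGraph.dist_eq_one_iff_adj.1 hm
      have h1 : (Sub G W).Adj w w' := h0
      rw [SimpleGraph.edist_eq_one_iff_adj.2 h1]
      simp
    obtain ⟨w₁, hw1, h1, h2⟩ := hW w w.2 w' w'.2 m hm
    have h3 : (Sub G W).edist w ⟨w₁, hw1⟩ = 1 := SimpleGraph.edist_eq_one_iff_adj.2 h1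
    have h4 := ih _ (Nat.lt_succ_of_le h2) ⟨w₁, hw1⟩ w' rfl
    calc (Sub G W).edist w w' ≤ (Sub G W).edist w ⟨w₁, hw1⟩ + (Sub G W).edist ⟨w₁, hw1⟩ w' :=
          SimpleGraph.edist_triangle
      _ ≤ 1 + ((m + 1 : ℕ) : ℕ∞) := by
        rw [h3]
        exact add_le_add_right (le_trans h4 (by exact_mod_cast h2)) 1
      _ = ((m + 1 + 1 : ℕ) : ℕ∞) := by
        push_cast
        ring

private theorem subN {N : ℕ} {G : SimpleGraph ℕ} (h : Univ N G) {W : Finset ℕ} (hW : GeoN G W) (w w' : W) :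
    (Sub G W).edist w w' = G.edist (w : ℕ) w' := by
  apply le_antisymm
  · rw [← coe_dist h]
    exact keyN h hW _ w w' rfl
  · exact edist_hom_le (⟨fun w : W => (w : ℕ), fun h' => h'⟩ : Sub G W →g G) w w'

private theorem EAEA_iso {X Y : Type} {G : SimpleGraph X} {H : SimpleGraph Y} (φ : G ≃g H) {a c e : ℕ}
    {θ : (I4 a c e → I4 a c e → ℕ∞) → Prop} (hG : EAEA G a c e θ) : EAEA H a c e θ := by
  obtain ⟨x, hx⟩ := hG
  refine ⟨fun i => φ (x i), fun y => ?_⟩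
  obtain ⟨z, hz⟩ := hx (φ.symm y)
  refine ⟨fun i => φ (z i), fun w => ?_⟩
  have h1 := hz fun i => φ.symm (w i)
  have h2 : φ (φ.symm y) = y := φ.apply_symm_apply y
  have h3 : (fun i => φ (φ.symm (w i))) = w := by
    funext i
    exact φ.apply_symm_apply (w i)
  have e1 : (fun i j => H.edist (Sum.elim (fun i => φ (x i)) (Sum.elim (fun _ : Fin 1 => y)
      (Sum.elim (fun i => φ (z i)) w)) i) (Sum.elim (fun i => φ (x i)) (Sum.elim (fun _ : Fin 1 => y)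
      (Sum.elim (fun i => φ (z i)) w)) j)) = fun i j : I4 a c e =>
      G.edist (Sum.elim x (Sum.elim (fun _ : Fin 1 => φ.symm y) (Sum.elim z fun i => φ.symm (w i))) i)
        (Sum.elim x (Sum.elim (fun _ : Fin 1 => φ.symm y) (Sum.elim z fun i => φ.symm (w i))) j) := by
    funext i j
    rw [← edist_iso φ, elimN (fun u => φ u), elimN (fun u => φ u), h2, h3]
  rw [e1]
  exact h1

/-- The transfer to `W`. -/
private theorem EAEA_sub {N : ℕ} {G : SimpleGraph ℕ} (h : Univ N G) {A W : Finset ℕ} {a c e : ℕ}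
    (hA : ∀ x : Fin a → ℕ, ∃ σ : G ≃g G, ∀ i, σ (x i) ∈ A) (hAW : A ⊆ W) (hW : GeoN G W)
    (hC : ConfN G A W (Fin c)) {θ : (I4 a c e → I4 a c e → ℕ∞) → Prop}
    (hG : EAEA G a c e θ) : EAEA (Sub G W) a c e θ := by
  classical
  obtain ⟨x₀, hx₀⟩ := hG
  obtain ⟨σ, hσ⟩ := hA x₀
  refine ⟨fun i => ⟨σ (x₀ i), hAW (hσ i)⟩, fun y => ?_⟩
  obtain ⟨z₀, hz₀⟩ := hx₀ (σ.symm (y : ℕ))
  obtain ⟨z, hzW, hzz, hzy, hzA⟩ := hC y y.2 fun i => σ (z₀ i)
  obtain ⟨τ, hτ⟩ := homogN h (J := Fin a ⊕ Fin 1 ⊕ Fin c)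
    (Sum.elim (fun i => σ (x₀ i)) (Sum.elim (fun _ => (y : ℕ)) fun i => σ (z₀ i)))
    (Sum.elim (fun i => σ (x₀ i)) (Sum.elim (fun _ => (y : ℕ)) z)) (by
      rintro (i | i | i) (j | j | j)
      · rfl
      · rfl
      · show G.dist (σ (x₀ i)) (σ (z₀ j)) = G.dist (σ (x₀ i)) (z j)
        rw [SimpleGraph.dist_comm, ← hzA j _ (hσ i), SimpleGraph.dist_comm]
      · rfl
      · rfl
      · show G.dist (y : ℕ) (σ (z₀ j)) = G.dist (y : ℕ) (z j)
        rw [SimpleGraph.dist_comm, ← hzy j, SimpleGraph.dist_comm]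
      · exact (hzA i _ (hσ j)).symm
      · exact (hzy i).symm
      · exact (hzz i j).symm)
  have hτx : ∀ i, τ (σ (x₀ i)) = σ (x₀ i) := fun i => hτ (Sum.inl i)
  have hτy : τ (y : ℕ) = y := hτ (Sum.inr (Sum.inl 0))
  have hτz : ∀ i, τ (σ (z₀ i)) = z i := fun i => hτ (Sum.inr (Sum.inr i))
  refine ⟨fun i => ⟨z i, hzW i⟩, fun w => ?_⟩
  have h1 := hz₀ fun i => σ.symm (τ.symm (w i : ℕ))
  have e2 : τ (σ (σ.symm (y : ℕ))) = y := by
    rw [σ.apply_symm_apply]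
    exact hτy
  have e3 : (fun i => τ (σ (x₀ i))) = fun i => ((⟨σ (x₀ i), hAW (hσ i)⟩ : W) : ℕ) := by
    funext i
    exact hτx i
  have e4 : (fun i => τ (σ (z₀ i))) = fun i => ((⟨z i, hzW i⟩ : W) : ℕ) := by
    funext i
    exact hτz i
  have e5 : (fun i => τ (σ (σ.symm (τ.symm (w i : ℕ))))) = fun i => ((w i : W) : ℕ) := by
    funext i
    rw [σ.apply_symm_apply, τ.apply_symm_apply]
  have e1 : (fun i j : I4 a c e => (Sub G W).edist (Sum.elim (fun i => (⟨σ (x₀ i), hAW (hσ i)⟩ : W))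
      (Sum.elim (fun _ : Fin 1 => y) (Sum.elim (fun i => ⟨z i, hzW i⟩) w)) i)
      (Sum.elim (fun i => (⟨σ (x₀ i), hAW (hσ i)⟩ : W))
      (Sum.elim (fun _ : Fin 1 => y) (Sum.elim (fun i => ⟨z i, hzW i⟩) w)) j)) = fun i j =>
      G.edist (Sum.elim x₀ (Sum.elim (fun _ : Fin 1 => σ.symm (y : ℕ))
        (Sum.elim z₀ fun i => σ.symm (τ.symm (w i : ℕ)))) i)
        (Sum.elim x₀ (Sum.elim (fun _ : Fin 1 => σ.symm (y : ℕ))
        (Sum.elim z₀ fun i => σ.symm (τ.symm (w i : ℕ)))) j) := by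
    have e6 : ∀ u v : ℕ, G.edist u v = G.edist (τ (σ u)) (τ (σ v)) := fun u v => by
      rw [edist_iso τ, edist_iso σ]
    funext i j
    rw [subN h hW, e6 (Sum.elim x₀ _ i) (Sum.elim x₀ _ j), elimN (fun u => τ (σ u)),
      elimN (fun u => τ (σ u)), e2, e3, e4, e5, elimN (fun u : W => (u : ℕ)), elimN (fun u : W => (u : ℕ))]
  rw [e1]
  exact h1

/-- **The theorem.** -/
theorem mainN {N : ℕ} {G : SimpleGraph ℕ} (h : Univ N G) (a c : ℕ) :
    ∃ (n : ℕ) (H : SimpleGraph (Fin n)), H.Connected ∧ H.ediam = (N : ℕ∞) ∧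
      ∀ (e : ℕ) (θ : (Fin a ⊕ Fin 1 ⊕ Fin c ⊕ Fin e → Fin a ⊕ Fin 1 ⊕ Fin c ⊕ Fin e → ℕ∞) → Prop),
        EAEA G a c e θ → EAEA H a c e θ := by
  classical
  obtain ⟨A, hA1, hA2⟩ := exists_A h a
  have hA : A.Nonempty := by
    obtain ⟨p, hp, _⟩ := hA1
    exact ⟨p, hp⟩
  obtain ⟨W, hAW, hW, hC⟩ := exists_WN h A hA (Fin c)
  have φe := Fintype.equivFin W
  have φ : Sub G W ≃g (Sub G W).map φe.toEmbedding := SimpleGraph.Iso.map φe (Sub G W)
  have hconn : (Sub G W).Connected := by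
    have : Nonempty W := ⟨⟨_, hAW hA.choose_spec⟩⟩
    refine ⟨fun w w' => ?_⟩
    apply SimpleGraph.reachable_of_edist_ne_top
    rw [subN h hW, ← coe_dist h]
    exact ENat.natCast_ne_top _
  have hdiam : (Sub G W).ediam = (N : ℕ∞) := by
    apply le_antisymm
    · apply SimpleGraph.ediam_le_of_edist_le
      intro w w'
      rw [subN h hW, ← h.2.1]
      exact SimpleGraph.edist_le_ediam
    · obtain ⟨a, ha, b, hb, hab⟩ := hA1
      rw [← hab]
      have := subN h hW ⟨a, hAW ha⟩ ⟨b, hAW hb⟩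
      rw [← this]
      exact SimpleGraph.edist_le_ediam
  refine ⟨_, (Sub G W).map φe.toEmbedding, φ.connected_iff.1 hconn, ?_, ?_⟩
  · rw [ediam_iso φ, hdiam]
  · intro e θ hθ
    exact EAEA_iso φ (EAEA_sub h hA2 hAW hW hC hθ)

end Pool.Agent.H23.UT
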