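import Pool.Agent.H23.US.King

/-!
# [H23 UT Tor] The torus `(ℤ/(2N+1))^ι` with the sup metric, and isometric copies with a prescribed point
-/

set_option autoImplicit false

open Finset

namespace Pool.Agent.H23.UT

open Pool.Agent.H23.US

/-- The cyclic distance. -/
def cd {N : ℕ} (x y : ZMod (2 * N + 1)) : ℕ := (x - y).valMinAbs.natAbs

theorem cd_self {N : ℕ} (x : ZMod (2 * N + 1)) : cd x x = 0 := by
  unfold cd
  rw [sub_self, ZMod.valMinAbs_zero, Int.natAbs_zero]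

theorem cd_comm {N : ℕ} (x y : ZMod (2 * N + 1)) : cd x y = cd y x := by
  unfold cd
  rw [← ZMod.natAbs_valMinAbs_neg, neg_sub]

theorem cd_tri {N : ℕ} (x y z : ZMod (2 * N + 1)) : cd x z ≤ cd x y + cd y z := by
  unfold cd
  have h := ZMod.natAbs_valMinAbs_add_le (x - y) (y - z)
  have h1 : (x - y) + (y - z) = x - z := by ring
  rw [h1] at h
  exact le_trans h (Int.natAbs_add_le _ _)

theorem cd_le {N : ℕ} (x y : ZMod (2 * N + 1)) : cd x y ≤ N := by
  unfold cd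
  have h := ZMod.natAbs_valMinAbs_le (x - y)
  omega

theorem cd_pos {N : ℕ} {x y : ZMod (2 * N + 1)} (h : x ≠ y) : 1 ≤ cd x y := by
  unfold cd
  rw [Nat.one_le_iff_ne_zero, Ne, Int.natAbs_eq_zero, ZMod.valMinAbs_eq_zero, sub_eq_zero]
  exact h

theorem cd_shift {N : ℕ} (b r : ZMod (2 * N + 1)) {s t : ℕ} (hs : s ≤ N) (ht : t ≤ N) :
    cd (b + (s : ZMod (2 * N + 1)) - r) (b + (t : ZMod (2 * N + 1)) - r) = (s - t) + (t - s) := by
  unfold cd
  have h1 : (b + (s : ZMod (2 * N + 1)) - r) - (b + (t : ZMod (2 * N + 1)) - r) = (((s : ℤ) - t : ℤ) : ZMod (2 * N + 1)) := by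
    push_cast
    ring
  have h2 : ((((s : ℤ) - t : ℤ) : ZMod (2 * N + 1))).valMinAbs = (s : ℤ) - t := by
    rw [ZMod.valMinAbs_spec]
    refine ⟨rfl, ?_⟩
    rw [Set.mem_Ioc]
    push_cast
    omega
  rw [h1, h2]
  omega

/-- The sup distance. -/
def dC {N : ℕ} {ι : Type} [Fintype ι] (c c' : ι → ZMod (2 * N + 1)) : ℕ := univ.sup fun i => cd (c i) (c' i)

theorem dC_le_iff {N : ℕ} {ι : Type} [Fintype ι] (c c' : ι → ZMod (2 * N + 1)) (k : ℕ) :
    dC c c' ≤ k ↔ ∀ i, cd (c i) (c' i) ≤ k := by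
  unfold dC
  rw [Finset.sup_le_iff]
  simp

theorem le_dC {N : ℕ} {ι : Type} [Fintype ι] (c c' : ι → ZMod (2 * N + 1)) (i : ι) :
    cd (c i) (c' i) ≤ dC c c' := (dC_le_iff c c' _).1 le_rfl i

theorem dC_self {N : ℕ} {ι : Type} [Fintype ι] (c : ι → ZMod (2 * N + 1)) : dC c c = 0 := by
  apply Nat.le_zero.1
  rw [dC_le_iff]
  intro i
  rw [cd_self]

theorem dC_comm {N : ℕ} {ι : Type} [Fintype ι] (c c' : ι → ZMod (2 * N + 1)) : dC c c' = dC c' c := by
  unfold dC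
  congr 1
  funext i
  exact cd_comm _ _

theorem dC_tri {N : ℕ} {ι : Type} [Fintype ι] (c c' c'' : ι → ZMod (2 * N + 1)) :
    dC c c'' ≤ dC c c' + dC c' c'' := by
  rw [dC_le_iff]
  intro i
  have h1 := cd_tri (c i) (c' i) (c'' i)
  have h2 := le_dC c c' i
  have h3 := le_dC c' c'' i
  omega

theorem dC_le {N : ℕ} {ι : Type} [Fintype ι] (c c' : ι → ZMod (2 * N + 1)) : dC c c' ≤ N := by
  rw [dC_le_iff]
  exact fun i => cd_le _ _

theorem dC_pos {N : ℕ} {ι : Type} [Fintype ι] {c c' : ι → ZMod (2 * N + 1)} (h : c ≠ c') : 1 ≤ dC c c' := by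
  obtain ⟨i, hi⟩ := Function.ne_iff.1 h
  exact le_trans (cd_pos hi) (le_dC c c' i)

/-- The Kuratowski map with values near `c₀`, normalised at `y`. -/
noncomputable def phi {N : ℕ} {ι : Type} (G : SimpleGraph ℕ) (q : ι → ℕ) (c₀ : ι → ZMod (2 * N + 1)) (y u : ℕ) :
    ι → ZMod (2 * N + 1) := fun i => c₀ i + (G.dist u (q i) : ZMod (2 * N + 1)) - (G.dist y (q i) : ZMod (2 * N + 1))

theorem phi_base {N : ℕ} {ι : Type} (G : SimpleGraph ℕ) (q : ι → ℕ) (c₀ : ι → ZMod (2 * N + 1)) (y : ℕ) :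
    phi G q c₀ y y = c₀ := by
  funext i
  unfold phi
  ring

theorem phi_dist {N : ℕ} {ι : Type} [Fintype ι] {G : SimpleGraph ℕ} (h : Univ N G) (q : ι → ℕ)
    (c₀ : ι → ZMod (2 * N + 1)) (y u : ℕ) (j : ι) :
    dC (phi G q c₀ y u) (phi G q c₀ y (q j)) = G.dist u (q j) := by
  apply le_antisymm
  · rw [dC_le_iff]
    intro i
    unfold phi
    rw [cd_shift _ _ (dist_le h _ _) (dist_le h _ _)]
    have h1 : G.dist u (q i) ≤ G.dist u (q j) + G.dist (q j) (q i) := h.1.dist_triangle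
    have h2 : G.dist (q j) (q i) ≤ G.dist (q j) u + G.dist u (q i) := h.1.dist_triangle
    have h3 : G.dist (q j) u = G.dist u (q j) := SimpleGraph.dist_comm
    omega
  · have h1 := le_dC (phi G q c₀ y u) (phi G q c₀ y (q j)) j
    unfold phi at h1
    rw [cd_shift _ _ (dist_le h _ _) (dist_le h _ _), SimpleGraph.dist_self] at h1
    unfold phi
    omega

end Pool.Agent.H23.UT
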